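import Pool.Agent.N664.FC.Power

/-!
# The uniform finite theorem
-/

set_option autoImplicit false

namespace Pool.Agent.N664.FC

open Finset Classical Pool.Agent.W227.FC

/-- the number of ordered pairs of elements of `A` with sum `n` -/
noncomputable def rep (A : Set ℕ) (n : ℕ) : ℕ :=
  {p : ℕ × ℕ | p.1 ∈ A ∧ p.2 ∈ A ∧ p.1 + p.2 = n}.ncard

lemma rep_finite (A : Set ℕ) (n : ℕ) :
    {p : ℕ × ℕ | p.1 ∈ A ∧ p.2 ∈ A ∧ p.1 + p.2 = n}.Finite := by
  apply Set.Finite.subset (antidiagonal n).finite_toSet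
  rintro ⟨a, b⟩ ⟨-, -, h⟩
  rw [mem_coe, Finset.HasAntidiagonal.mem_antidiagonal]
  exact h

lemma rep_mono {A B : Set ℕ} (h : B ⊆ A) (n : ℕ) : rep B n ≤ rep A n := by
  apply Set.ncard_le_ncard _ (rep_finite A n)
  rintro ⟨a, b⟩ ⟨h1, h2, h3⟩
  exact ⟨h h1, h h2, h3⟩

lemma rep_le (A : Set ℕ) (n : ℕ) : rep A n ≤ n + 1 := by
  have h1 : rep A n ≤ (((antidiagonal n : Finset (ℕ × ℕ)) : Set (ℕ × ℕ))).ncard := by
    apply Set.ncard_le_ncard _ (finite_toSet _)
    rintro ⟨a, b⟩ ⟨-, -, h⟩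
    rw [mem_coe, Finset.HasAntidiagonal.mem_antidiagonal]
    exact h
  rwa [Set.ncard_coe_finset, Nat.card_antidiagonal] at h1

lemma rep_of_symm {A : Set ℕ} {s σ : ℕ} {W : Finset ℕ} (h : ∀ y ∈ W, y ≤ σ ∧ σ - y ∈ W)
    (hA : ∀ w ∈ W, s + w ∈ A) : W.card ≤ rep A (2 * s + σ) := by
  have h1 : (W.image (fun w => (s + w, s + (σ - w)))).card = W.card := by
    apply card_image_of_injective
    intro a b hab
    rw [Prod.mk.injEq] at hab
    omega
  rw [← h1, ← Set.ncard_coe_finset]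
  apply Set.ncard_le_ncard _ (rep_finite _ _)
  intro p hp
  rw [mem_coe, mem_image] at hp
  obtain ⟨w, hw, rfl⟩ := hp
  obtain ⟨h2, h3⟩ := h w hw
  exact ⟨hA w hw, hA _ h3, by simp only; omega⟩

lemma rep_two {A : Set ℕ} {a b : ℕ} (ha : a ∈ A) (hb : b ∈ A) (hab : a ≠ b) :
    2 ≤ rep A (a + b) := by
  have h1 : ({(a, b), (b, a)} : Finset (ℕ × ℕ)).card = 2 := by
    rw [card_pair]
    intro h
    rw [Prod.mk.injEq] at h
    exact hab h.1
  rw [← h1, ← Set.ncard_coe_finset]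
  apply Set.ncard_le_ncard _ (rep_finite _ _)
  intro p hp
  rw [mem_coe, mem_insert, mem_singleton] at hp
  rcases hp with rfl | rfl
  · exact ⟨ha, hb, rfl⟩
  · exact ⟨hb, ha, add_comm _ _⟩

/-- **Uniform finite theorem.** -/
theorem power_finite {α : ℝ} (hα : 0 < α) : ∃ c : ℝ, 0 < c ∧ ∀ (N : ℕ) (Φ : ℝ) (A B : Set ℕ),
    2 ≤ N → 2 ≤ Φ → B ⊆ A → (∀ b ∈ B, b < N) → (N : ℝ) ^ α ≤ cnt B N →
    (∀ L : ℕ, 1 ≤ L → (cplx B L : ℝ) ≤ Φ * L) →
    ∃ n < 2 * N, (N : ℝ) ^ (c / Real.log Φ) ≤ rep A n := by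
  set ε : ℝ := α / 8 with hε
  have hε0 : 0 < ε := by positivity
  set r : ℝ := (2 : ℝ) ^ (-ε) with hr
  have hr0 : 0 < r := by positivity
  have hr1 : r < 1 := r_lt hε0
  have h1r : 0 < 1 - r := by linarith
  set D0 : ℝ := 64 / (1 - r) with hD0
  have hD01 : 1 ≤ D0 := by
    rw [hD0, le_div_iff₀ h1r]
    linarith
  have hD00 : 0 < D0 := by linarith
  set K0 : ℝ := 48 * (4 : ℝ) ^ ε / (1 - r) with hK0
  have hK01 : 1 ≤ K0 := by
    rw [hK0, le_div_iff₀ h1r]
    have : (1 : ℝ) ≤ (4 : ℝ) ^ ε := Real.one_le_rpow (by norm_num) hε0.le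
    linarith
  have hK00 : 0 < K0 := by linarith
  set a0 : ℝ := Real.log K0 with ha0
  have ha00 : 0 ≤ a0 := Real.log_nonneg hK01
  set d0 : ℝ := Real.log D0 with hd0
  have hd00 : 0 ≤ d0 := Real.log_nonneg hD01
  set ℓ : ℝ := Real.log 2 with hℓ
  have hℓ0 : 0 < ℓ := Real.log_pos (by norm_num)
  set E : ℝ := 6 / ℓ + d0 / ℓ ^ 2 + 1 / ℓ with hE
  have hE0 : 0 < E := by positivity
  set F : ℝ := 2 / α * ((a0 + d0) / ℓ + 1) with hF
  have hF0 : 0 < F := by positivity
  set c : ℝ := min (α / (4 * E)) (ℓ / F) with hc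
  have hc0 : 0 < c := lt_min (by positivity) (by positivity)
  have hcE : c * E ≤ α / 4 := by
    have : c ≤ α / (4 * E) := min_le_left _ _
    rw [le_div_iff₀ (by positivity)] at this
    linarith
  have hcF : c * F ≤ ℓ := by
    have : c ≤ ℓ / F := min_le_right _ _
    rwa [le_div_iff₀ hF0] at this
  refine ⟨c, hc0, ?_⟩
  intro N Φ A B hN hΦ hBA hBN hcard hp
  have hNr : (2 : ℝ) ≤ N := by exact_mod_cast hN
  have hN0 : (0 : ℝ) < N := by linarith
  set Λ : ℝ := Real.log Φ with hΛ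
  have hΛℓ : ℓ ≤ Λ := Real.log_le_log (by norm_num) hΦ
  have hΛ0 : 0 < Λ := by linarith
  set ν : ℝ := Real.log N with hν
  have hν0 : 0 < ν := Real.log_pos (by linarith)
  have hρ : (N : ℝ) ^ (c / Λ) = Real.exp (ν * (c / Λ)) := by
    rw [Real.rpow_def_of_pos hN0]
  by_cases hcase : a0 + d0 + Λ < α / 2 * ν
  · by_contra hcon
    push Not at hcon
    set ρ : ℝ := (N : ℝ) ^ (c / Λ) with hρdef
    have hρ1 : 1 ≤ ρ := Real.one_le_rpow (by linarith) (by positivity)
    set R := ⌊ρ⌋₊ with hR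
    have hR1 : 1 ≤ R := by
      rw [hR, Nat.one_le_floor_iff]
      exact hρ1
    have hRρ : (R : ℝ) ≤ ρ := Nat.floor_le (by linarith)
    have hsym : SymBound B R := by
      rintro s W ⟨σ, hσ⟩ hW
      by_cases hW0 : W.card = 0
      · omega
      · obtain ⟨w, hw⟩ := card_pos.1 (by omega : 0 < W.card)
        have h1 := hBN _ (hW w hw)
        have h2 := hBN _ (hW _ (hσ w hw).2)
        have h3 := (hσ w hw).1
        have h4 := hcon (2 * s + σ) (by omega)
        have h5 := rep_of_symm hσ (fun w hw => hBA (hW w hw))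
        apply Nat.le_floor
        have h6 : (W.card : ℝ) ≤ rep A (2 * s + σ) := by exact_mod_cast h5
        linarith
    set m := Nat.log 2 R + 1 with hm
    have hRm : R < 2 ^ m := Nat.lt_pow_succ_log_self (by norm_num) _
    have hfew := few (X := N) (by omega) hε0 (by linarith : 1 ≤ Φ) hsym hR1 hp m hRm
    have hR0 : (0 : ℝ) < R := by exact_mod_cast (by omega : 0 < R)
    have hlogR : Real.log R ≤ ν * (c / Λ) := by
      have h1 : Real.log R ≤ Real.log ρ := Real.log_le_log hR0 hRρ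
      rw [hρ, Real.log_exp] at h1
      exact h1
    have hlogR0 : 0 ≤ Real.log R := Real.log_nonneg (by exact_mod_cast hR1)
    have hmlog : (m : ℝ) ≤ 1 + Real.log R / ℓ := by
      have h1 : (2 : ℝ) ^ (Nat.log 2 R) ≤ R := by
        exact_mod_cast Nat.pow_log_le_self 2 (by omega)
      have h2 := Real.log_le_log (by positivity) h1
      rw [Real.log_pow] at h2
      rw [hm]
      push_cast
      have h3 : (Nat.log 2 R : ℝ) ≤ Real.log R / ℓ := by
        rw [le_div_iff₀ hℓ0]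
        exact h2
      linarith
    -- logarithms
    have h1 : (N : ℝ) ^ α < K0 * (R : ℝ) ^ 6 * (N : ℝ) ^ (2 * ε) * (D0 * Φ) ^ m := by
      calc (N : ℝ) ^ α ≤ cnt B N := hcard
        _ < _ := hfew
        _ = _ := by
          rw [hK0, hD0]
          have : 64 * Φ / (1 - r) = 64 / (1 - r) * Φ := by ring
          rw [this]
          ring
    have hΦ0 : 0 < Φ := by linarith
    have h2 := Real.log_lt_log (by positivity) h1
    rw [Real.log_mul (by positivity) (by positivity), Real.log_mul (by positivity) (by positivity),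
      Real.log_mul (by positivity) (by positivity), Real.log_pow, Real.log_pow,
      Real.log_rpow hN0, Real.log_rpow hN0, Real.log_mul (by positivity) (by positivity)] at h2
    push_cast at h2
    have h3 : (m : ℝ) * (d0 + Λ) ≤ (1 + Real.log R / ℓ) * (d0 + Λ) :=
      mul_le_mul_of_nonneg_right hmlog (by positivity)
    have h4 : Real.log R / ℓ * (d0 + Λ) ≤ c * ν * (d0 / ℓ ^ 2 + 1 / ℓ) := by
      have h5 : Real.log R / ℓ * (d0 + Λ) ≤ ν * (c / Λ) / ℓ * (d0 + Λ) := by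
        apply mul_le_mul_of_nonneg_right _ (by positivity)
        exact div_le_div_of_nonneg_right hlogR hℓ0.le
      have h6 : ν * (c / Λ) / ℓ * (d0 + Λ) = c * ν * (d0 / (Λ * ℓ) + 1 / ℓ) := by
        field_simp
      have h7 : d0 / (Λ * ℓ) ≤ d0 / ℓ ^ 2 := by
        apply div_le_div_of_nonneg_left hd00 (by positivity)
        nlinarith
      rw [h6] at h5
      refine h5.trans ?_
      apply mul_le_mul_of_nonneg_left _ (by positivity)
      linarith
    have h5 : 6 * Real.log R ≤ c * ν * (6 / ℓ) := by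
      have h6 : ν * (c / Λ) ≤ c * ν * (1 / ℓ) := by
        have h7 : ν * (c / Λ) = c * ν * (1 / Λ) := by ring
        rw [h7]
        apply mul_le_mul_of_nonneg_left _ (by positivity)
        exact one_div_le_one_div_of_le hℓ0 hΛℓ
      have h7 : c * ν * (6 / ℓ) = 6 * (c * ν * (1 / ℓ)) := by ring
      rw [h7]
      linarith
    have h6 : c * ν * E ≤ α / 4 * ν := by
      calc c * ν * E = c * E * ν := by ring
        _ ≤ α / 4 * ν := mul_le_mul_of_nonneg_right hcE hν0.le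
    have h7 : c * ν * E = c * ν * (6 / ℓ) + c * ν * (d0 / ℓ ^ 2 + 1 / ℓ) := by
      rw [hE]
      ring
    have h8 : 2 * ε * ν = α / 4 * ν := by
      rw [hε]
      ring
    have h9 : (1 + Real.log R / ℓ) * (d0 + Λ) = d0 + Λ + Real.log R / ℓ * (d0 + Λ) := by ring
    rw [h9] at h3
    linarith
  · push Not at hcase
    -- small `N`
    have h1 : ν ≤ F * Λ := by
      have h2 : a0 + d0 ≤ (a0 + d0) / ℓ * Λ := by
        rw [div_mul_eq_mul_div, le_div_iff₀ hℓ0]
        apply mul_le_mul_of_nonneg_left hΛℓ (by positivity)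
      have h3 : α / 2 * ν ≤ ((a0 + d0) / ℓ + 1) * Λ := by linarith
      have h4 : F * Λ = 2 / α * (((a0 + d0) / ℓ + 1) * Λ) := by
        rw [hF]
        ring
      rw [h4]
      calc ν = 2 / α * (α / 2 * ν) := by field_simp
        _ ≤ _ := mul_le_mul_of_nonneg_left h3 (by positivity)
    have h2 : (N : ℝ) ^ (c / Λ) ≤ 2 := by
      rw [hρ]
      have h3 : ν * (c / Λ) ≤ ℓ := by
        calc ν * (c / Λ) ≤ F * Λ * (c / Λ) := mul_le_mul_of_nonneg_right h1 (by positivity)
          _ = c * F := by field_simp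
          _ ≤ ℓ := hcF
      calc Real.exp (ν * (c / Λ)) ≤ Real.exp ℓ := Real.exp_le_exp.2 h3
        _ = 2 := by rw [hℓ, Real.exp_log (by norm_num)]
    have h3 : (1 : ℝ) < cnt B N := by
      refine lt_of_lt_of_le ?_ hcard
      exact Real.one_lt_rpow (by linarith) hα
    have h4 : 1 < cnt B N := by exact_mod_cast h3
    obtain ⟨a, ha, b, hb, hab⟩ := one_lt_card.1 h4
    rw [mem_filter, mem_range] at ha hb
    refine ⟨a + b, by omega, h2.trans ?_⟩
    exact_mod_cast rep_two (hBA ha.2) (hBA hb.2) hab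

end Pool.Agent.N664.FC
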