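import Pool.Agent.N664.FC.Run

/-!
# Gaps of a finite set, with geometric weights
-/

set_option autoImplicit false

namespace Pool.Agent.N664.FC

open Finset Classical

/-- every second element -/
lemma thin2 {C : Finset ℕ} {V : ℕ} (h : ∀ c ∈ C, ∀ c' ∈ C, c < c' → V ≤ 2 * (c' - c)) :
    ∃ C' ⊆ C, C.card ≤ 2 * C'.card ∧ ∀ c ∈ C', ∀ c' ∈ C', c < c' → V ≤ c' - c := by
  set rk : ℕ → ℕ := fun c => (C.filter (fun y => y < c)).card with hrk
  have key : ∀ c ∈ C, ∀ c' ∈ C, c < c' → (Even (rk c) ↔ Even (rk c')) → V ≤ c' - c := by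
    intro c hc c' hc' hlt hpar
    have hsub : C.filter (fun y => y < c) ⊆ C.filter (fun y => y < c') := by
      intro y hy
      rw [mem_filter] at hy ⊢
      exact ⟨hy.1, by omega⟩
    have hmem : c ∈ C.filter (fun y => y < c') \ C.filter (fun y => y < c) := by
      rw [mem_sdiff, mem_filter, mem_filter]
      exact ⟨⟨hc, hlt⟩, fun h => by omega⟩
    have hcard : (C.filter (fun y => y < c') \ C.filter (fun y => y < c)).card = rk c' - rk c := by
      rw [card_sdiff_of_subset hsub]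
    have h1 : 0 < rk c' - rk c := by
      rw [← hcard]
      exact card_pos.2 ⟨c, hmem⟩
    have h2 : 2 ≤ rk c' - rk c := by
      by_contra hcon
      have h3 : rk c' = rk c + 1 := by omega
      rw [h3, Nat.even_add_one] at hpar
      tauto
    rw [← hcard] at h2
    obtain ⟨b, hb, hbc⟩ := exists_mem_ne (by omega : 1 <
      (C.filter (fun y => y < c') \ C.filter (fun y => y < c)).card) c
    rw [mem_sdiff, mem_filter, mem_filter] at hb
    have h3 : c < b := by
      by_contra hcon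
      exact hb.2 ⟨hb.1.1, by omega⟩
    have h4 := h c hc b hb.1.1 h3
    have h5 := h b hb.1.1 c' hc' hb.1.2
    omega
  have hsum := card_filter_add_card_filter_not (s := C) (fun c => Even (rk c))
  by_cases hc : C.card ≤ 2 * (C.filter (fun c => Even (rk c))).card
  · refine ⟨C.filter (fun c => Even (rk c)), filter_subset _ _, hc, ?_⟩
    intro c h1 c' h2 hlt
    rw [mem_filter] at h1 h2
    exact key c h1.1 c' h2.1 hlt (by simp [h1.2, h2.2])
  · refine ⟨C.filter (fun c => ¬ Even (rk c)), filter_subset _ _, by omega, ?_⟩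
    intro c h1 c' h2 hlt
    rw [mem_filter] at h1 h2
    exact key c h1.1 c' h2.1 hlt (by simp [h1.2, h2.2])

/-- the next element -/
lemma next_exists (T : Finset ℕ) (hne : T.Nonempty) :
    ∃ nx : ℕ → ℕ, ∀ t ∈ T.erase (T.max' hne),
      nx t ∈ T ∧ t < nx t ∧ ∀ y, t < y → y < nx t → y ∉ T := by
  set M := T.max' hne with hM
  refine ⟨fun t => if h : (T.filter (fun y => t < y)).Nonempty then
    (T.filter (fun y => t < y)).min' h else 0, ?_⟩
  intro t ht
  have h3 : (T.filter (fun y => t < y)).Nonempty := by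
    rw [mem_erase] at ht
    refine ⟨M, ?_⟩
    rw [mem_filter]
    exact ⟨T.max'_mem hne, lt_of_le_of_ne (T.le_max' t ht.2) ht.1⟩
  simp only [h3, dite_true]
  have h5 := (T.filter (fun y => t < y)).min'_mem h3
  rw [mem_filter] at h5
  refine ⟨h5.1, h5.2, ?_⟩
  intro y hy1 hy2 hy3
  have h6 := (T.filter (fun y => t < y)).min'_le y (by
    rw [mem_filter]
    exact ⟨hy3, hy1⟩)
  omega

/-- the sum of the gaps -/
lemma sum_gaps {T : Finset ℕ} {X : ℕ} (hX : ∀ t ∈ T, t < X) (hne : T.Nonempty) {nx : ℕ → ℕ}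
    (hnx : ∀ t ∈ T.erase (T.max' hne), nx t ∈ T ∧ t < nx t ∧ ∀ y, t < y → y < nx t → y ∉ T) :
    ∑ t ∈ T.erase (T.max' hne), (nx t - t) ≤ X := by
  have h1 : ∑ t ∈ T.erase (T.max' hne), (nx t - t) =
      ((T.erase (T.max' hne)).biUnion (fun t => Ico t (nx t))).card := by
    rw [card_biUnion]
    · simp
    · intro a ha b hb hab
      change Disjoint (Ico a (nx a)) (Ico b (nx b))
      rw [Finset.disjoint_left]
      intro y hy1 hy2
      rw [mem_Ico] at hy1 hy2
      have ha' := (mem_erase.1 ha).2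
      have hb' := (mem_erase.1 hb).2
      rcases lt_or_gt_of_ne hab with h | h
      · exact (hnx a ha).2.2 b h (by omega) hb'
      · exact (hnx b hb).2.2 a h (by omega) ha'
  rw [h1]
  calc _ ≤ (range X).card := by
        apply card_le_card
        intro y hy
        rw [mem_biUnion] at hy
        obtain ⟨t, ht, hy⟩ := hy
        rw [mem_Ico] at hy
        have := hX _ (hnx t ht).1
        rw [mem_range]
        omega
    _ = X := card_range X

/-- pigeonhole principle with geometric weights -/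
lemma wpigeon {S : Finset ℕ} (hS : S.Nonempty) (f : ℕ → ℕ) {r : ℝ} (hr0 : 0 < r) (hr1 : r < 1) :
    ∃ i, (∃ s ∈ S, f s = i) ∧
      (1 - r) * r ^ i * S.card ≤ (S.filter (fun s => f s = i)).card := by
  by_contra hcon
  push Not at hcon
  have h1 : (S.card : ℝ) = ∑ i ∈ S.image f, ((S.filter (fun s => f s = i)).card : ℝ) := by
    rw [← Nat.cast_sum, ← card_eq_sum_card_image]
  have h2 : ∑ i ∈ S.image f, ((S.filter (fun s => f s = i)).card : ℝ) <
      ∑ i ∈ S.image f, (1 - r) * r ^ i * S.card := by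
    apply sum_lt_sum_of_nonempty (hS.image f)
    intro i hi
    rw [mem_image] at hi
    exact hcon i hi
  obtain ⟨n, hn⟩ : ∃ n, S.image f ⊆ range n := by
    refine ⟨(S.image f).sup id + 1, ?_⟩
    intro i hi
    rw [mem_range]
    have := le_sup (f := id) hi
    simp only [id] at this
    omega
  have hS0 : (0 : ℝ) < S.card := by exact_mod_cast card_pos.2 hS
  have h3 : ∑ i ∈ S.image f, (1 - r) * r ^ i * S.card ≤
      ∑ i ∈ range n, (1 - r) * r ^ i * S.card := by
    apply sum_le_sum_of_subset_of_nonneg hn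
    intro i _ _
    have : 0 ≤ 1 - r := by linarith
    positivity
  have h4 : ∑ i ∈ range n, (1 - r) * r ^ i * (S.card : ℝ) = (1 - r ^ n) * S.card := by
    rw [← sum_mul, ← mul_sum]
    congr 1
    have h5 := geom_sum_eq (ne_of_lt hr1) n
    rw [h5]
    have : r - 1 ≠ 0 := by linarith
    field_simp
    ring
  have h5 : (0 : ℝ) < r ^ n := by positivity
  have h6 : (1 - r ^ n) * (S.card : ℝ) ≤ S.card := by nlinarith
  linarith

/-- Many gaps of comparable size. -/
lemma gap_class {C : Finset ℕ} {X V : ℕ} (hV : 1 ≤ V) (hCX : ∀ c ∈ C, c < X)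
    (hgap : ∀ c ∈ C, ∀ c' ∈ C, c < c' → V ≤ 2 * (c' - c)) {r : ℝ} (hr0 : 0 < r) (hr1 : r < 1)
    (h8 : 8 ≤ C.card) :
    ∃ (i : ℕ) (B : Finset ℕ) (nx : ℕ → ℕ), B ⊆ C ∧ B.Nonempty ∧
      (1 - r) * r ^ i * C.card ≤ 4 * B.card ∧
      2 ^ i * V * C.card ≤ 8 * X ∧
      ∀ c ∈ B, nx c ∈ C ∧ c + 2 ^ i * V ≤ nx c ∧ nx c < c + 2 ^ (i + 1) * V ∧
        ∀ c' ∈ B, c < c' → nx c ≤ c' := by
  obtain ⟨T, hTC, hT2, hTgap⟩ := thin2 hgap
  have hTc : 4 ≤ T.card := by omega
  have hne : T.Nonempty := card_pos.1 (by omega)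
  obtain ⟨nx, hnx⟩ := next_exists T hne
  have hsum := sum_gaps (fun t ht => hCX t (hTC ht)) hne hnx
  set T' := T.erase (T.max' hne) with hT'
  have hT'c : T'.card = T.card - 1 := card_erase_of_mem (T.max'_mem hne)
  have hX0 : 0 < X := lt_of_le_of_lt (Nat.zero_le _) (hCX _ (hTC (T.max'_mem hne)))
  set S := T'.filter (fun t => (nx t - t) * T.card ≤ 4 * X) with hS
  have hbad : 4 * (T'.filter (fun t => ¬ (nx t - t) * T.card ≤ 4 * X)).card ≤ T.card := by
    set D := T'.filter (fun t => ¬ (nx t - t) * T.card ≤ 4 * X) with hD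
    have h1 : D.card * (4 * X) ≤ ∑ t ∈ D, (nx t - t) * T.card := by
      rw [← smul_eq_mul]
      apply card_nsmul_le_sum
      intro t ht
      rw [hD, mem_filter] at ht
      omega
    have h2 : ∑ t ∈ D, (nx t - t) * T.card ≤ X * T.card := by
      rw [← sum_mul]
      apply Nat.mul_le_mul_right
      exact (sum_le_sum_of_subset (filter_subset _ _)).trans hsum
    have h3 : 4 * D.card * X ≤ T.card * X := by
      calc 4 * D.card * X = D.card * (4 * X) := by ring
        _ ≤ X * T.card := h1.trans h2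
        _ = T.card * X := by ring
    exact Nat.le_of_mul_le_mul_right h3 hX0
  have hsplit := card_filter_add_card_filter_not (s := T')
    (fun t => (nx t - t) * T.card ≤ 4 * X)
  rw [← hS] at hsplit
  have hScard : T.card ≤ 2 * S.card := by omega
  have hSne : S.Nonempty := card_pos.1 (by omega)
  obtain ⟨i, ⟨s0, hs0, hs0i⟩, hi⟩ := wpigeon hSne (fun t => Nat.log 2 ((nx t - t) / V)) hr0 hr1
  have hclass : ∀ t ∈ S, Nat.log 2 ((nx t - t) / V) = i →
      2 ^ i * V ≤ nx t - t ∧ nx t - t < 2 ^ (i + 1) * V := by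
    intro t ht hti
    rw [hS, mem_filter] at ht
    obtain ⟨h3, h4, h5⟩ := hnx t ht.1
    have htT : t ∈ T := (mem_erase.1 ht.1).2
    have h6 : V ≤ nx t - t := hTgap t htT (nx t) h3 h4
    have h7 : 1 ≤ (nx t - t) / V := (Nat.one_le_div_iff (by omega)).2 h6
    constructor
    · have h8 : 2 ^ i ≤ (nx t - t) / V := by
        rw [← hti]
        exact Nat.pow_log_le_self 2 (by omega)
      exact (Nat.le_div_iff_mul_le (by omega)).1 h8
    · have h8 : (nx t - t) / V < 2 ^ (i + 1) := by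
        rw [← hti]
        exact Nat.lt_pow_succ_log_self (by norm_num) _
      exact (Nat.div_lt_iff_lt_mul (by omega)).1 h8
  refine ⟨i, S.filter (fun t => Nat.log 2 ((nx t - t) / V) = i), nx, ?_, ?_, ?_, ?_, ?_⟩
  · intro t ht
    rw [mem_filter, hS, mem_filter] at ht
    exact hTC (mem_erase.1 ht.1.1).2
  · exact ⟨s0, mem_filter.2 ⟨hs0, hs0i⟩⟩
  · have h1 : (C.card : ℝ) ≤ 4 * S.card := by
      have : C.card ≤ 4 * S.card := by omega
      exact_mod_cast this
    have h2 : 0 ≤ (1 - r) * r ^ i := by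
      have : 0 ≤ 1 - r := by linarith
      positivity
    calc (1 - r) * r ^ i * C.card ≤ (1 - r) * r ^ i * (4 * S.card) :=
          mul_le_mul_of_nonneg_left h1 h2
      _ = 4 * ((1 - r) * r ^ i * S.card) := by ring
      _ ≤ 4 * _ := by linarith
  · have h1 := (hclass s0 hs0 hs0i).1
    rw [hS, mem_filter] at hs0
    have h2 := hs0.2
    calc 2 ^ i * V * C.card ≤ 2 ^ i * V * (2 * T.card) := Nat.mul_le_mul_left _ hT2
      _ = 2 * (2 ^ i * V * T.card) := by ring
      _ ≤ 2 * ((nx s0 - s0) * T.card) := by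
          apply Nat.mul_le_mul_left
          exact Nat.mul_le_mul_right _ h1
      _ ≤ 2 * (4 * X) := Nat.mul_le_mul_left _ h2
      _ = 8 * X := by ring
  · intro t ht
    rw [mem_filter] at ht
    obtain ⟨h1, h2⟩ := hclass t ht.1 ht.2
    have ht1 := ht.1
    rw [hS, mem_filter] at ht1
    obtain ⟨h3, h4, h5⟩ := hnx t ht1.1
    refine ⟨hTC h3, by omega, by omega, ?_⟩
    intro c' hc' hlt
    rw [mem_filter, hS, mem_filter] at hc'
    by_contra hcon
    exact h5 c' hlt (by omega) (mem_erase.1 hc'.1.1).2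

end Pool.Agent.N664.FC
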