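import Pool.Agent.N664.FC.Finite
import Pool.Agent.W227.FC.Growth

/-!
# Infinite sets: truncation, growth conditions
-/

set_option autoImplicit false

namespace Pool.Agent.N664.FC

open Finset Classical Filter Topology Pool.Agent.W227.FC

/-- the elements of `B` below `N` -/
def trunc (B : Set ℕ) (N : ℕ) : Set ℕ := {b | b ∈ B ∧ b < N}

lemma fac_trunc_lt {B : Set ℕ} {N L s : ℕ} (h : s + L ≤ N) :
    fac (trunc B N) L s = fac B L s := by
  ext i
  rw [mem_fac, mem_fac]
  constructor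
  · rintro ⟨h1, h2, -⟩
    exact ⟨h1, h2⟩
  · rintro ⟨h1, h2⟩
    exact ⟨h1, h2, by omega⟩

lemma fac_trunc_ge {B : Set ℕ} {N L s : ℕ} (h : N ≤ s) : fac (trunc B N) L s = ∅ := by
  ext i
  rw [mem_fac]
  constructor
  · rintro ⟨h1, h2, h3⟩
    omega
  · intro h
    simp at h

lemma cplx_trunc_ge (B : Set ℕ) (N L : ℕ) : cplx (trunc B N) L ≤ N + 1 := by
  unfold cplx
  have h : (range L).powerset.filter (fun w => ∃ s, fac (trunc B N) L s = w) ⊆
      (range (N + 1)).image (fun s => fac (trunc B N) L s) := by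
    intro w hw
    rw [mem_filter] at hw
    obtain ⟨-, s, rfl⟩ := hw
    rw [mem_image]
    by_cases hs : s < N + 1
    · exact ⟨s, mem_range.2 hs, rfl⟩
    · refine ⟨N, mem_range.2 (by omega), ?_⟩
      rw [fac_trunc_ge (le_refl _), fac_trunc_ge (by omega)]
  refine (card_le_card h).trans (card_image_le.trans ?_)
  rw [card_range]

lemma cplx_trunc_add (B : Set ℕ) (N : ℕ) {L : ℕ} (hL : 1 ≤ L) :
    cplx (trunc B N) L ≤ cplx B L + L := by
  unfold cplx
  have h : (range L).powerset.filter (fun w => ∃ s, fac (trunc B N) L s = w) ⊆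
      (range L).powerset.filter (fun w => ∃ s, fac B L s = w) ∪
      (range L).image (fun i => fac (trunc B N) L (N - i)) := by
    intro w hw
    rw [mem_filter] at hw
    obtain ⟨hw, s, rfl⟩ := hw
    rw [mem_union]
    by_cases hs : s + L ≤ N
    · left
      rw [mem_filter]
      exact ⟨hw, s, (fac_trunc_lt hs).symm⟩
    · right
      rw [mem_image]
      by_cases hs2 : s ≤ N
      · exact ⟨N - s, mem_range.2 (by omega), by rw [show N - (N - s) = s by omega]⟩
      · refine ⟨0, mem_range.2 (by omega), ?_⟩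
        rw [fac_trunc_ge (by omega), fac_trunc_ge (by omega)]
  refine (card_le_card h).trans ((card_union_le _ _).trans ?_)
  have := card_image_le (s := range L) (f := fun i => fac (trunc B N) L (N - i))
  rw [card_range] at this
  omega

lemma cnt_trunc (B : Set ℕ) (N : ℕ) : cnt (trunc B N) N = cnt B N := by
  unfold cnt
  congr 1
  ext s
  rw [mem_filter, mem_filter, mem_range]
  constructor
  · rintro ⟨h1, h2, -⟩
    exact ⟨h1, h2⟩
  · rintro ⟨h1, h2⟩
    exact ⟨h1, h2, h1⟩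

/-- **Infinite sets of small complexity.** -/
theorem power_infinite {α : ℝ} (hα : 0 < α) : ∃ c : ℝ, 0 < c ∧ ∀ (A B : Set ℕ) (φ : ℕ → ℝ),
    B ⊆ A → Monotone φ → (∀ L, 2 ≤ φ L) →
    (∀ L : ℕ, 1 ≤ L → (complexity B L : ℝ) ≤ L * φ L) →
    (∃ᶠ N : ℕ in atTop, (N : ℝ) ^ α ≤ (B ∩ Set.Iio N).ncard) →
    ∃ᶠ N : ℕ in atTop, ∃ n < N, (N : ℝ) ^ (c / Real.log (φ N)) ≤ rep A n := by
  obtain ⟨c, hc, h⟩ := power_finite hα
  refine ⟨c / 4, by positivity, ?_⟩
  intro A B φ hBA hφ hφ2 hp hfreq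
  rw [frequently_atTop]
  intro a
  obtain ⟨N, hN, hN2, hNa⟩ := (hfreq.and_eventually
    ((eventually_ge_atTop 2).and (eventually_ge_atTop a))).exists
  have hNr : (2 : ℝ) ≤ N := by exact_mod_cast hN2
  have hN0 : (0 : ℝ) < N := by linarith
  obtain ⟨n, hn, hn2⟩ := h N (φ N + 1) A (trunc B N) hN2 (by have := hφ2 N; linarith)
    (fun b hb => hBA hb.1) (fun b hb => hb.2) (by
      rw [cnt_trunc, ← cnt_eq]
      exact hN) (by
      intro L hL
      have hLr : (1 : ℝ) ≤ L := by exact_mod_cast hL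
      have hφN := hφ2 N
      by_cases hLN : L ≤ N
      · have h1 : (cplx (trunc B N) L : ℝ) ≤ cplx B L + L := by
          exact_mod_cast cplx_trunc_add B N hL
        have h2 : (cplx B L : ℝ) ≤ L * φ L :=
          le_trans (by exact_mod_cast cplx_le B L) (hp L hL)
        have h3 : (L : ℝ) * φ L ≤ L * φ N := by
          apply mul_le_mul_of_nonneg_left (hφ hLN) (by linarith)
        calc (cplx (trunc B N) L : ℝ) ≤ cplx B L + L := h1
          _ ≤ (φ N + 1) * L := by linarith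
      · have h1 : (cplx (trunc B N) L : ℝ) ≤ ((N + 1 : ℕ) : ℝ) := by
          exact_mod_cast cplx_trunc_ge B N L
        have h2 : ((N + 1 : ℕ) : ℝ) ≤ L := by exact_mod_cast (by omega : N + 1 ≤ L)
        nlinarith)
  refine ⟨2 * N, by omega, n, hn, ?_⟩
  refine le_trans ?_ hn2
  have h1 := hφ2 N
  have h2 := hφ (by omega : N ≤ 2 * N)
  have hl2 : 0 < Real.log 2 := Real.log_pos (by norm_num)
  have hl1 : Real.log 2 ≤ Real.log (φ N) := Real.log_le_log (by norm_num) h1
  have hl3 : Real.log (φ N) ≤ Real.log (φ (2 * N)) := Real.log_le_log (by linarith) h2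
  have hl4 : Real.log (φ N + 1) ≤ 2 * Real.log (φ N) := by
    rw [show 2 * Real.log (φ N) = Real.log (φ N ^ 2) by rw [Real.log_pow]; norm_num]
    apply Real.log_le_log (by linarith)
    nlinarith
  have hl5 : 0 < Real.log (φ N + 1) := Real.log_pos (by linarith)
  have h3 : ((2 * N : ℕ) : ℝ) ≤ (N : ℝ) ^ (2 : ℝ) := by
    rw [Real.rpow_two]
    push_cast
    nlinarith
  calc ((2 * N : ℕ) : ℝ) ^ (c / 4 / Real.log (φ (2 * N)))
      ≤ ((N : ℝ) ^ (2 : ℝ)) ^ (c / 4 / Real.log (φ (2 * N))) := by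
        apply Real.rpow_le_rpow (by positivity) h3
        have : 0 < Real.log (φ (2 * N)) := by linarith
        positivity
    _ = (N : ℝ) ^ (2 * (c / 4 / Real.log (φ (2 * N)))) := by
        rw [← Real.rpow_mul hN0.le]
    _ ≤ (N : ℝ) ^ (c / Real.log (φ N + 1)) := by
        apply Real.rpow_le_rpow_of_exponent_le (by linarith)
        have h4 : 0 < Real.log (φ (2 * N)) := by linarith
        have h5 : 2 * (c / 4 / Real.log (φ (2 * N))) = c / (2 * Real.log (φ (2 * N))) := by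
          field_simp
          norm_num
        rw [h5]
        apply div_le_div_of_nonneg_left hc.le hl5
        linarith

/-- **Sets of linear complexity.** -/
theorem power_linear {α : ℝ} (hα : 0 < α) : ∃ c : ℝ, 0 < c ∧ ∀ (A B : Set ℕ) (C : ℝ),
    B ⊆ A → 2 ≤ C → (∀ L : ℕ, 1 ≤ L → (complexity B L : ℝ) ≤ C * L) →
    (∃ᶠ N : ℕ in atTop, (N : ℝ) ^ α ≤ (B ∩ Set.Iio N).ncard) →
    ∃ᶠ n : ℕ in atTop, (n : ℝ) ^ (c / Real.log C) ≤ rep A n := by
  obtain ⟨c, hc, h⟩ := power_infinite hα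
  refine ⟨c, hc, ?_⟩
  intro A B C hBA hC hp hfreq
  have hlog : 0 < Real.log C := Real.log_pos (by linarith)
  have he : 0 < c / Real.log C := by positivity
  have h1 := h A B (fun _ => C) hBA monotone_const (fun _ => hC) (fun L hL => by
    rw [mul_comm]
    exact hp L hL) hfreq
  rw [frequently_atTop]
  intro a
  have h2 : ∀ᶠ N : ℕ in atTop, ((a : ℝ) + 1) ≤ (N : ℝ) ^ (c / Real.log C) :=
    (tendsto_natCast_atTop_atTop (R := ℝ)).eventually
      ((tendsto_rpow_atTop he).eventually_ge_atTop _)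
  obtain ⟨N, ⟨n, hn, hn2⟩, hNa⟩ := (h1.and_eventually h2).exists
  refine ⟨n, ?_, ?_⟩
  · have h3 : ((a : ℝ) + 1) ≤ ((n + 1 : ℕ) : ℝ) := by
      refine le_trans (hNa.trans hn2) ?_
      exact_mod_cast rep_le A n
    have h4 : a + 1 ≤ n + 1 := by exact_mod_cast h3
    omega
  · refine le_trans ?_ hn2
    apply Real.rpow_le_rpow (by positivity) _ he.le
    exact_mod_cast hn.le

/-- bases of order two have many elements -/
lemma freq_of_rep {A : Set ℕ} (h : ∀ᶠ n : ℕ in atTop, 1 ≤ rep A n) {α : ℝ} (hα : α < 1 / 2) :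
    ∃ᶠ N : ℕ in atTop, (N : ℝ) ^ α ≤ (A ∩ Set.Iio N).ncard := by
  refine freq_of_basis (h := 2) (by norm_num) ?_ (by exact_mod_cast hα)
  filter_upwards [h] with n hn
  have h2 : {p : ℕ × ℕ | p.1 ∈ A ∧ p.2 ∈ A ∧ p.1 + p.2 = n}.Nonempty := by
    by_contra h3
    rw [Set.not_nonempty_iff_eq_empty] at h3
    unfold rep at hn
    rw [h3, Set.ncard_empty] at hn
    omega
  obtain ⟨p, h3, h4, h5⟩ := h2
  refine ⟨![p.1, p.2], ?_, ?_⟩
  · intro i
    fin_cases i
    · exact h3
    · exact h4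
  · rw [Fin.sum_univ_two]
    exact h5

end Pool.Agent.N664.FC
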