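import Pool.Agent.N664.FC.Step

/-!
# Iteration of the step: sets of linear complexity
-/

set_option autoImplicit false

namespace Pool.Agent.N664.FC

open Finset Classical Pool.Agent.W227.FC

/-- all symmetric sets in `A` have at most `R` elements -/
def SymBound (A : Set ℕ) (R : ℕ) : Prop :=
  ∀ (s : ℕ) (W : Finset ℕ), Symm W → (∀ w ∈ W, s + w ∈ A) → W.card ≤ R

lemma fac_one {A : Set ℕ} {s : ℕ} : fac A 1 s = {0} ↔ s ∈ A := by
  constructor
  · intro h
    have : (0 : ℕ) ∈ fac A 1 s := by rw [h]; simp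
    rw [mem_fac] at this
    simpa using this.2
  · intro h
    ext i
    rw [mem_fac, Finset.mem_singleton]
    constructor
    · rintro ⟨h1, -⟩
      omega
    · rintro rfl
      exact ⟨by norm_num, by simpa using h⟩

lemma symm_zero : Symm {0} := ⟨0, by simp⟩

/-- The state at the beginning. -/
lemma base_state {A : Set ℕ} {X : ℕ} (h : 0 < cnt A X) :
    ∃ u, IsState A X 1 u {0} 1 0 {0} ∧ (occ A X 1 u).card = cnt A X := by
  obtain ⟨u, hu⟩ := card_pos.1 h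
  rw [mem_filter, mem_range] at hu
  have hu1 := fac_one.2 hu.2
  refine ⟨u, ⟨?_, symm_zero, le_refl _, ?_, symm_zero, ?_⟩, ?_⟩
  · intro y hy
    rw [hu1]
    exact hy
  · intro z hz
    rw [mem_singleton] at hz
    subst hz
    rw [hu1]
    simp
  · intro s _ t _ h1 h2
    omega
  · unfold cnt occ
    congr 1
    ext s
    rw [mem_filter, mem_filter, hu1, fac_one]

/-- the number `2 ^ (-ε)` -/
lemma r_pow {ε : ℝ} (i : ℕ) : ((2 : ℝ) ^ (-ε)) ^ i = ((2 : ℝ) ^ i) ^ (-ε) := by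
  rw [← Real.rpow_natCast, ← Real.rpow_mul (by norm_num), ← Real.rpow_natCast,
    ← Real.rpow_mul (by norm_num)]
  congr 1
  ring

lemma r_lt {ε : ℝ} (hε : 0 < ε) : (2 : ℝ) ^ (-ε) < 1 :=
  Real.rpow_lt_one_of_one_lt_of_neg (by norm_num) (by linarith)

/-- Consequences of the step for sets all of whose symmetric sets are small. -/
lemma step_bound {A : Set ℕ} {X L u : ℕ} {Y : Finset ℕ} {P x : ℕ} {Z : Finset ℕ} (hL : 1 ≤ L)
    (hX : 1 ≤ X) (hS : IsState A X L u Y P x Z) (hZ : 1 ≤ Z.card) {ε : ℝ} (hε : 0 < ε) {R : ℕ}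
    (hR : SymBound A R) (hR1 : 1 ≤ R)
    (hM : 48 * (R : ℝ) ^ 2 * (X : ℝ) ^ ε / (1 - (2 : ℝ) ^ (-ε)) ≤ (occ A X L u).card) :
    ∃ q κ i : ℕ, 1 ≤ q ∧ q ≤ 2 * R ∧ (occ A X L u).card ≤ q * (q + 1) * κ ∧ 2 ^ i ≤ X ∧
      1 ≤ κ ∧
      ∃ (L' u' x' : ℕ) (Y' : Finset ℕ), IsState A X L' u' Y' L x' Y ∧
          2 * Y.card ≤ Y'.card ∧ q * Z.card ≤ Y'.card ∧ 4 * (2 ^ i * L) ≤ L' ∧ L' ≤ 4 * X ∧
          L' * κ ≤ 32 * X ∧
          (1 - (2 : ℝ) ^ (-ε)) * ((2 : ℝ) ^ i) ^ (-ε) * κ * L' ≤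
            32 * (cplx A L' * (occ A X L' u').card) := by
  set r : ℝ := (2 : ℝ) ^ (-ε) with hr
  have hr0 : 0 < r := by positivity
  have hr1 : r < 1 := r_lt hε
  have h1r : 0 < 1 - r := by linarith
  have hRr : (1 : ℝ) ≤ R := by exact_mod_cast hR1
  have hXr : (1 : ℝ) ≤ X := by exact_mod_cast hX
  have hXe : (1 : ℝ) ≤ (X : ℝ) ^ ε := Real.one_le_rpow hXr hε.le
  obtain ⟨q, κ, hq, hcard, h1, -, h8⟩ := step hL hS hr0 hr1
  have hMpos : (0 : ℝ) < (occ A X L u).card := by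
    refine lt_of_lt_of_le ?_ hM
    positivity
  have hκ : 1 ≤ κ := by
    by_contra hcon
    have h0 : κ = 0 := by omega
    subst h0
    rw [mul_zero] at hcard
    have : (occ A X L u).card = 0 := by omega
    rw [this] at hMpos
    simp at hMpos
  have hq2 : q ≤ 2 * R := by
    obtain ⟨s, W, hW1, hW2, -, hW4⟩ := h1 hκ
    have h3 := hR s W hW1 hW2
    have h4 : q * 1 ≤ q * Z.card := Nat.mul_le_mul_left _ hZ
    omega
  have hqq : ((q * (q + 1) : ℕ) : ℝ) ≤ 6 * (R : ℝ) ^ 2 := by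
    have h3 : (q : ℝ) ≤ 2 * R := by exact_mod_cast hq2
    push_cast
    have h4 : (0 : ℝ) ≤ q := by positivity
    calc (q : ℝ) * (q + 1) ≤ (2 * R) * (2 * R + 1) := by
          apply mul_le_mul h3 (by linarith) (by positivity) (by positivity)
      _ ≤ 6 * (R : ℝ) ^ 2 := by nlinarith
  have hκr : 8 * (X : ℝ) ^ ε / (1 - r) ≤ κ := by
    have h3 : ((occ A X L u).card : ℝ) ≤ ((q * (q + 1) : ℕ) : ℝ) * κ := by exact_mod_cast hcard
    have h4 : ((q * (q + 1) : ℕ) : ℝ) * κ ≤ 6 * (R : ℝ) ^ 2 * κ :=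
      mul_le_mul_of_nonneg_right hqq (by positivity)
    have h5 : 48 * (R : ℝ) ^ 2 * (X : ℝ) ^ ε / (1 - r) = 6 * (R : ℝ) ^ 2 * (8 * (X : ℝ) ^ ε / (1 - r)) := by
      ring
    rw [h5] at hM
    have h6 := hM.trans (h3.trans h4)
    exact le_of_mul_le_mul_left h6 (by positivity)
  have hκ8 : 8 ≤ κ := by
    have h3 : (8 : ℝ) ≤ 8 * (X : ℝ) ^ ε / (1 - r) := by
      rw [le_div_iff₀ h1r]
      nlinarith
    have : (8 : ℝ) ≤ κ := h3.trans hκr
    exact_mod_cast this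
  obtain ⟨i, hi, hnew⟩ := h8 hκ8
  have hir : r ^ i = ((2 : ℝ) ^ i) ^ (-ε) := r_pow i
  have hbig : 8 ≤ (1 - r) * r ^ i * κ := by
    have h3 : (X : ℝ) ^ (-ε) ≤ r ^ i := by
      rw [hir]
      apply Real.rpow_le_rpow_of_nonpos (by positivity) _ (by linarith)
      exact_mod_cast hi
    have h4 : (X : ℝ) ^ (-ε) * (X : ℝ) ^ ε = 1 := by
      rw [← Real.rpow_add (by linarith)]
      simp
    calc (8 : ℝ) = (1 - r) * (X : ℝ) ^ (-ε) * (8 * (X : ℝ) ^ ε / (1 - r)) := by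
          have : (1 - r) * (X : ℝ) ^ (-ε) * (8 * (X : ℝ) ^ ε / (1 - r)) =
            8 * ((X : ℝ) ^ (-ε) * (X : ℝ) ^ ε) := by
              field_simp
          rw [this, h4]
          norm_num
      _ ≤ (1 - r) * r ^ i * κ := by
          apply mul_le_mul _ hκr (by positivity) (by positivity)
          exact mul_le_mul_of_nonneg_left h3 h1r.le
  obtain ⟨L', u', x', Y', g1, g2, g3, g4, g5, g6, g7⟩ := hnew hbig
  refine ⟨q, κ, i, hq, hq2, hcard, hi, hκ, L', u', x', Y', g1, g2, g3, g4, g5, g6, ?_⟩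
  rw [← hir]
  exact g7

/-- The potential does not decrease much. -/
lemma iterate {A : Set ℕ} {X : ℕ} (hX : 1 ≤ X) {ε Φ : ℝ} (hε : 0 < ε) (hΦ : 1 ≤ Φ) {R : ℕ}
    (hR : SymBound A R) (hR1 : 1 ≤ R) (hp : ∀ L : ℕ, 1 ≤ L → (cplx A L : ℝ) ≤ Φ * L) (m : ℕ)
    (hbig : 48 * (R : ℝ) ^ 6 * (4 : ℝ) ^ ε * (X : ℝ) ^ (2 * ε) *
      (64 * Φ / (1 - (2 : ℝ) ^ (-ε))) ^ m / (1 - (2 : ℝ) ^ (-ε)) ≤ cnt A X) :
    ∀ j ≤ m, ∃ (L u : ℕ) (Y : Finset ℕ) (P x : ℕ) (Z : Finset ℕ), 1 ≤ L ∧ L ≤ 4 * X ∧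
      IsState A X L u Y P x Z ∧ 2 ^ j ≤ Y.card ∧ 1 ≤ Z.card ∧
      (cnt A X : ℝ) ≤ (occ A X L u).card * (L : ℝ) ^ ε * ((Y.card : ℝ) * Z.card) ^ 2 *
        (64 * Φ / (1 - (2 : ℝ) ^ (-ε))) ^ j := by
  set r : ℝ := (2 : ℝ) ^ (-ε) with hr
  have hr0 : 0 < r := by positivity
  have hr1 : r < 1 := r_lt hε
  have h1r : 0 < 1 - r := by linarith
  have hRr : (1 : ℝ) ≤ R := by exact_mod_cast hR1
  have hXr : (1 : ℝ) ≤ X := by exact_mod_cast hX
  have hXe : (1 : ℝ) ≤ (X : ℝ) ^ ε := Real.one_le_rpow hXr hε.le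
  set D : ℝ := 64 * Φ / (1 - r) with hD
  have hD1 : 1 ≤ D := by
    rw [hD, le_div_iff₀ h1r]
    linarith
  have hcnt : 0 < cnt A X := by
    have : (0 : ℝ) < cnt A X := lt_of_lt_of_le (by positivity) hbig
    exact_mod_cast this
  intro j
  induction j with
  | zero =>
    intro _
    obtain ⟨u, hu, hu2⟩ := base_state hcnt
    refine ⟨1, u, {0}, 1, 0, {0}, le_refl _, by omega, hu, by simp, by simp, ?_⟩
    rw [hu2]
    simp
  | succ j ih =>
    intro hj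
    obtain ⟨L, u, Y, P, x, Z, hL, hL4, hS, hY, hZ, hpot⟩ := ih (by omega)
    have hLr : (1 : ℝ) ≤ L := by exact_mod_cast hL
    have hYR : Y.card ≤ R := hR u Y hS.hYs (fun w hw => (mem_fac.1 (hS.hY w hw)).2)
    have hZR : Z.card ≤ R := by
      refine hR (u + x) Z hS.hZs (fun w hw => ?_)
      have := (mem_fac.1 (hS.hZ w hw).2).2
      rwa [← add_assoc] at this
    have hYRr : (Y.card : ℝ) ≤ R := by exact_mod_cast hYR
    have hZRr : (Z.card : ℝ) ≤ R := by exact_mod_cast hZR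
    have hDj : D ^ j ≤ D ^ m := pow_le_pow_right₀ hD1 (by omega)
    have hM : 48 * (R : ℝ) ^ 2 * (X : ℝ) ^ ε / (1 - r) ≤ (occ A X L u).card := by
      by_contra hcon
      push Not at hcon
      have h1 : (L : ℝ) ^ ε ≤ (4 : ℝ) ^ ε * (X : ℝ) ^ ε := by
        rw [← Real.mul_rpow (by norm_num) (by positivity)]
        apply Real.rpow_le_rpow (by positivity) _ hε.le
        exact_mod_cast hL4
      have h2 : ((Y.card : ℝ) * Z.card) ^ 2 ≤ (R : ℝ) ^ 4 := by
        calc ((Y.card : ℝ) * Z.card) ^ 2 ≤ ((R : ℝ) * R) ^ 2 := by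
              apply pow_le_pow_left₀ (by positivity)
              exact mul_le_mul hYRr hZRr (by positivity) (by positivity)
          _ = (R : ℝ) ^ 4 := by ring
      have hY0 : (0 : ℝ) < Y.card := by
        have : 0 < Y.card := lt_of_lt_of_le (by positivity) hY
        exact_mod_cast this
      have hZ0 : (0 : ℝ) < Z.card := by exact_mod_cast (by omega : 0 < Z.card)
      have h3 : (cnt A X : ℝ) < 48 * (R : ℝ) ^ 2 * (X : ℝ) ^ ε / (1 - r) *
          ((4 : ℝ) ^ ε * (X : ℝ) ^ ε) * (R : ℝ) ^ 4 * D ^ m := by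
        calc (cnt A X : ℝ) ≤ (occ A X L u).card * (L : ℝ) ^ ε * ((Y.card : ℝ) * Z.card) ^ 2 *
              D ^ j := hpot
          _ < 48 * (R : ℝ) ^ 2 * (X : ℝ) ^ ε / (1 - r) * (L : ℝ) ^ ε *
              ((Y.card : ℝ) * Z.card) ^ 2 * D ^ j := by
              apply mul_lt_mul_of_pos_right _ (by positivity)
              apply mul_lt_mul_of_pos_right _ (by positivity)
              exact mul_lt_mul_of_pos_right hcon (by positivity)
          _ ≤ _ := by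
              apply mul_le_mul _ hDj (by positivity) (by positivity)
              apply mul_le_mul _ h2 (by positivity) (by positivity)
              apply mul_le_mul_of_nonneg_left h1 (by positivity)
      have h4 : 48 * (R : ℝ) ^ 2 * (X : ℝ) ^ ε / (1 - r) *
          ((4 : ℝ) ^ ε * (X : ℝ) ^ ε) * (R : ℝ) ^ 4 * D ^ m =
          48 * (R : ℝ) ^ 6 * (4 : ℝ) ^ ε * (X : ℝ) ^ (2 * ε) * D ^ m / (1 - r) := by
        have h5 : (X : ℝ) ^ (2 * ε) = (X : ℝ) ^ ε * (X : ℝ) ^ ε := by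
          rw [← Real.rpow_add (by linarith)]
          congr 1
          ring
        rw [h5]
        ring
      rw [h4] at h3
      linarith
    obtain ⟨q, κ, i, hq, hqR, hcard, hi, hκ, L', u', x', Y', g1, g2, g3, g4, g5, g6, g7⟩ :=
      step_bound hL hX hS hZ hε hR hR1 hM
    have hL'1 : 1 ≤ L' := by
      have : 0 < 4 * (2 ^ i * L) := by positivity
      omega
    have hL'r : (0 : ℝ) < L' := by exact_mod_cast hL'1
    refine ⟨L', u', Y', L, x', Y, hL'1, g5, g1, ?_, ?_, ?_⟩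
    · rw [pow_succ]
      omega
    · exact le_trans Nat.one_le_two_pow hY
    · -- the potential
      have h1 : (1 - r) * ((2 : ℝ) ^ i) ^ (-ε) * κ ≤ 32 * Φ * (occ A X L' u').card := by
        have h2 : 32 * (cplx A L' * (occ A X L' u').card : ℝ) ≤
            32 * Φ * (occ A X L' u').card * L' := by
          have h3 := mul_le_mul_of_nonneg_right (hp L' hL'1)
            (by positivity : (0 : ℝ) ≤ (occ A X L' u').card)
          nlinarith
        exact le_of_mul_le_mul_right (g7.trans h2) hL'r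
      have h2 : ((occ A X L u).card : ℝ) ≤ 2 * (q : ℝ) ^ 2 * κ := by
        have h3 : ((occ A X L u).card : ℝ) ≤ ((q * (q + 1) : ℕ) : ℝ) * κ := by
          exact_mod_cast hcard
        have h4 : ((q * (q + 1) : ℕ) : ℝ) ≤ 2 * (q : ℝ) ^ 2 := by
          have : (1 : ℝ) ≤ q := by exact_mod_cast hq
          push_cast
          nlinarith
        exact h3.trans (mul_le_mul_of_nonneg_right h4 (by positivity))
      have h3 : (L : ℝ) ^ ε ≤ ((2 : ℝ) ^ i) ^ (-ε) * (L' : ℝ) ^ ε := by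
        have h4 : (2 : ℝ) ^ i * L ≤ L' := by
          have : 2 ^ i * L ≤ L' := by omega
          exact_mod_cast this
        have h5 : ((2 : ℝ) ^ i * L) ^ ε ≤ (L' : ℝ) ^ ε :=
          Real.rpow_le_rpow (by positivity) h4 hε.le
        rw [Real.mul_rpow (by positivity) (by positivity)] at h5
        have h6 : ((2 : ℝ) ^ i) ^ (-ε) * ((2 : ℝ) ^ i) ^ ε = 1 := by
          rw [← Real.rpow_add (by positivity)]
          simp
        calc (L : ℝ) ^ ε = ((2 : ℝ) ^ i) ^ (-ε) * (((2 : ℝ) ^ i) ^ ε * (L : ℝ) ^ ε) := by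
              rw [← mul_assoc, h6, one_mul]
          _ ≤ _ := mul_le_mul_of_nonneg_left h5 (by positivity)
      have hqZ : (q : ℝ) * Z.card ≤ Y'.card := by exact_mod_cast g3
      -- combine
      have h4 : ((occ A X L u).card : ℝ) * (L : ℝ) ^ ε * ((Y.card : ℝ) * Z.card) ^ 2 ≤
          (occ A X L' u').card * (L' : ℝ) ^ ε * ((Y'.card : ℝ) * Y.card) ^ 2 * D := by
        have h5 : ((occ A X L u).card : ℝ) * (L : ℝ) ^ ε ≤
            2 * (q : ℝ) ^ 2 * κ * (((2 : ℝ) ^ i) ^ (-ε) * (L' : ℝ) ^ ε) :=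
          mul_le_mul h2 h3 (by positivity) (by positivity)
        have h6 : κ * ((2 : ℝ) ^ i) ^ (-ε) ≤ 32 * Φ * (occ A X L' u').card / (1 - r) := by
          rw [le_div_iff₀ h1r]
          nlinarith
        have h7 : 2 * (q : ℝ) ^ 2 * κ * (((2 : ℝ) ^ i) ^ (-ε) * (L' : ℝ) ^ ε) ≤
            2 * (q : ℝ) ^ 2 * (L' : ℝ) ^ ε * (32 * Φ * (occ A X L' u').card / (1 - r)) := by
          calc 2 * (q : ℝ) ^ 2 * κ * (((2 : ℝ) ^ i) ^ (-ε) * (L' : ℝ) ^ ε) =
              2 * (q : ℝ) ^ 2 * (L' : ℝ) ^ ε * (κ * ((2 : ℝ) ^ i) ^ (-ε)) := by ring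
            _ ≤ _ := mul_le_mul_of_nonneg_left h6 (by positivity)
        calc ((occ A X L u).card : ℝ) * (L : ℝ) ^ ε * ((Y.card : ℝ) * Z.card) ^ 2 ≤
            2 * (q : ℝ) ^ 2 * (L' : ℝ) ^ ε * (32 * Φ * (occ A X L' u').card / (1 - r)) *
              ((Y.card : ℝ) * Z.card) ^ 2 :=
              mul_le_mul_of_nonneg_right (h5.trans h7) (by positivity)
          _ = (occ A X L' u').card * (L' : ℝ) ^ ε * (((q : ℝ) * Z.card) * Y.card) ^ 2 * D := by
              rw [hD]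
              ring
          _ ≤ _ := by
              apply mul_le_mul_of_nonneg_right _ (by positivity)
              apply mul_le_mul_of_nonneg_left _ (by positivity)
              apply pow_le_pow_left₀ (by positivity)
              exact mul_le_mul_of_nonneg_right hqZ (by positivity)
      calc (cnt A X : ℝ) ≤ (occ A X L u).card * (L : ℝ) ^ ε * ((Y.card : ℝ) * Z.card) ^ 2 *
            D ^ j := hpot
        _ ≤ (occ A X L' u').card * (L' : ℝ) ^ ε * ((Y'.card : ℝ) * Y.card) ^ 2 * D * D ^ j :=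
            mul_le_mul_of_nonneg_right h4 (by positivity)
        _ = _ := by
            rw [pow_succ]
            ring

/-- Sets of linear complexity all of whose symmetric sets are small have few elements. -/
theorem few {A : Set ℕ} {X : ℕ} (hX : 1 ≤ X) {ε Φ : ℝ} (hε : 0 < ε) (hΦ : 1 ≤ Φ) {R : ℕ}
    (hR : SymBound A R) (hR1 : 1 ≤ R) (hp : ∀ L : ℕ, 1 ≤ L → (cplx A L : ℝ) ≤ Φ * L) (m : ℕ)
    (hm : R < 2 ^ m) :
    (cnt A X : ℝ) < 48 * (R : ℝ) ^ 6 * (4 : ℝ) ^ ε * (X : ℝ) ^ (2 * ε) *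
      (64 * Φ / (1 - (2 : ℝ) ^ (-ε))) ^ m / (1 - (2 : ℝ) ^ (-ε)) := by
  by_contra hcon
  push Not at hcon
  obtain ⟨L, u, Y, P, x, Z, -, -, hS, hY, -, -⟩ := iterate hX hε hΦ hR hR1 hp m hcon m le_rfl
  have hYR : Y.card ≤ R := hR u Y hS.hYs (fun w hw => (mem_fac.1 (hS.hY w hw)).2)
  omega

end Pool.Agent.N664.FC
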