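import Pool.Agent.W227.FC.Rep

/-!
# Occurrences of a word: runs, symmetric sets
-/

set_option autoImplicit false

namespace Pool.Agent.N664.FC

open Finset Classical Pool.Agent.W227.FC

/-- positions below `X` of the occurrences of the word of length `L` at the position `u` -/
noncomputable def occ (A : Set ℕ) (X L u : ℕ) : Finset ℕ :=
  (range X).filter (fun s => fac A L s = fac A L u)

lemma mem_occ {A : Set ℕ} {X L u s : ℕ} : s ∈ occ A X L u ↔ s < X ∧ fac A L s = fac A L u := by
  unfold occ
  rw [mem_filter, mem_range]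

/-- `Y` is symmetric about some centre -/
def Symm (Y : Finset ℕ) : Prop := ∃ σ, ∀ y ∈ Y, y ≤ σ ∧ σ - y ∈ Y

/-- equidistant copies of a symmetric set -/
lemma copies {L x D t : ℕ} {Y : Finset ℕ} (hY : ∀ y ∈ Y, y < L) (hs : Symm Y) (ht : 1 ≤ t)
    (hD : 2 ≤ t → L ≤ D) :
    ∃ Y' : Finset ℕ, Y'.card = t * Y.card ∧ Symm Y' ∧
      ∀ z ∈ Y', ∃ k < t, ∃ y ∈ Y, z = x + k * D + y := by
  obtain ⟨σ, hσ⟩ := hs
  set f : ℕ × ℕ → ℕ := fun p => x + p.1 * D + p.2 with hf
  refine ⟨(range t ×ˢ Y).image f, ?_, ⟨2 * x + (t - 1) * D + σ, ?_⟩, ?_⟩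
  · rw [card_image_of_injOn, card_product, card_range]
    rintro ⟨k, y⟩ hp ⟨k', y'⟩ hp' he
    rw [mem_coe, mem_product, mem_range] at hp hp'
    simp only at hp hp'
    simp only [hf] at he
    have h1 := hY _ hp.2
    have h2 := hY _ hp'.2
    by_cases h : 2 ≤ t
    · have h3 := hD h
      have h4 : k = k' := by
        rcases lt_trichotomy k k' with h5 | h5 | h5
        · exfalso
          have : (k + 1) * D ≤ k' * D := Nat.mul_le_mul_right _ h5
          rw [add_mul, one_mul] at this
          omega
        · exact h5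
        · exfalso
          have : (k' + 1) * D ≤ k * D := Nat.mul_le_mul_right _ h5
          rw [add_mul, one_mul] at this
          omega
      subst h4
      rw [Prod.mk.injEq]
      exact ⟨rfl, by omega⟩
    · have h3 : k = 0 := by omega
      have h4 : k' = 0 := by omega
      subst h3 h4
      rw [Prod.mk.injEq]
      exact ⟨rfl, by omega⟩
  · intro z hz
    rw [mem_image] at hz
    obtain ⟨⟨k, y⟩, hp, rfl⟩ := hz
    rw [mem_product, mem_range] at hp
    simp only at hp
    obtain ⟨h1, h2⟩ := hσ _ hp.2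
    simp only [hf]
    have h3 : (t - 1) * D = k * D + (t - 1 - k) * D := by
      rw [← add_mul]
      congr 1
      omega
    refine ⟨by omega, ?_⟩
    rw [mem_image]
    refine ⟨(t - 1 - k, σ - y), ?_, ?_⟩
    · rw [mem_product, mem_range]
      exact ⟨by omega, h2⟩
    · simp only
      omega
  · intro z hz
    rw [mem_image] at hz
    obtain ⟨⟨k, y⟩, hp, rfl⟩ := hz
    rw [mem_product, mem_range] at hp
    exact ⟨k, hp.1, y, hp.2, rfl⟩

/-- the word at `t` has the period `d` as soon as the word occurs at some `s` and `s + d` -/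
lemma word_period {A : Set ℕ} {L s d t : ℕ} (h : fac A L s = fac A L (s + d))
    (ht : fac A L t = fac A L s) {i : ℕ} (hi : i + d < L) : t + i ∈ A ↔ t + i + d ∈ A := by
  have h1 : i ∈ fac A L t ↔ i ∈ fac A L s := by rw [ht]
  have h2 : i ∈ fac A L s ↔ i ∈ fac A L (s + d) := by rw [h]
  have h3 : i + d ∈ fac A L t ↔ i + d ∈ fac A L s := by rw [ht]
  rw [mem_fac, mem_fac] at h1 h2 h3
  have e1 : s + d + i = s + (i + d) := by ring
  have e2 : t + i + d = t + (i + d) := by ring
  rw [e1] at h2
  rw [e2]
  constructor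
  · intro h4
    exact (h3.2 ⟨hi, (h2.1 (h1.1 ⟨by omega, h4⟩)).2⟩).2
  · intro h4
    exact (h1.2 (h2.2 ⟨by omega, (h3.1 ⟨hi, h4⟩).2⟩)).2

/-- two occurrences at distance `≤ L / 2`, not smaller than a period `d`: the previous place -/
lemma link {A : Set ℕ} {X L u s0 d s t : ℕ} (h0 : s0 ∈ occ A X L u) (h1 : s0 + d ∈ occ A X L u)
    (hs : s ∈ occ A X L u) (ht : t ∈ occ A X L u) (hst : s < t) (h2 : 2 * (t - s) ≤ L)
    (hd : d ≤ t - s) : t - d ∈ occ A X L u := by
  rw [mem_occ] at h0 h1 hs ht ⊢
  refine ⟨by omega, ?_⟩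
  rw [← ht.2]
  have hper : fac A L s0 = fac A L (s0 + d) := by rw [h0.2, h1.2]
  ext i
  rw [mem_fac, mem_fac]
  have key : i < L → (t - d + i ∈ A ↔ t + i ∈ A) := by
    intro hi
    by_cases h3 : t - d + i + d < s + L
    · -- inside the word at `s`
      have h4 := word_period (A := A) (L := L) (s := s0) (d := d) (t := s) hper
        (by rw [hs.2, h0.2]) (i := t - d + i - s) (by omega)
      have e1 : s + (t - d + i - s) = t - d + i := by omega
      rw [e1] at h4
      have e2 : t - d + i + d = t + i := by omega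
      rwa [e2] at h4
    · have h4 := word_period (A := A) (L := L) (s := s0) (d := d) (t := t) hper
        (by rw [ht.2, h0.2]) (i := t - d + i - t) (by omega)
      have e1 : t + (t - d + i - t) = t - d + i := by omega
      rw [e1] at h4
      have e2 : t - d + i + d = t + i := by omega
      rwa [e2] at h4
  constructor
  · rintro ⟨h3, h4⟩
    exact ⟨h3, (key h3).1 h4⟩
  · rintro ⟨h3, h4⟩
    exact ⟨h3, (key h3).2 h4⟩

/-- `∑ 1 / ((k+1)(k+2)) < 1` -/
lemma sum_tel (n : ℕ) : ∑ k ∈ range n, (1 : ℝ) / (((k : ℝ) + 1) * ((k : ℝ) + 2)) =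
    1 - 1 / ((n : ℝ) + 1) := by
  induction n with
  | zero => simp
  | succ n ih =>
    rw [sum_range_succ, ih]
    push_cast
    field_simp
    ring

/-- **Runs.** The occurrences of a word: starts of runs of `q` occurrences with difference `d`. -/
lemma clusters (A : Set ℕ) (X L u : ℕ) :
    ∃ (q d : ℕ) (C : Finset ℕ), 1 ≤ q ∧ C ⊆ occ A X L u ∧
      (occ A X L u).card ≤ q * (q + 1) * C.card ∧
      (2 ≤ q → 1 ≤ d ∧ 2 * d ≤ L ∧ ∃ s ∈ occ A X L u, s + d ∈ occ A X L u) ∧
      (∀ c ∈ C, ∀ k < q, c + k * d ∈ occ A X L u) ∧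
      (∀ c ∈ C, ∀ t ∈ occ A X L u, t < c → L < 2 * (c - t)) := by
  set T := occ A X L u with hT
  by_cases hlink : ∃ d, 1 ≤ d ∧ 2 * d ≤ L ∧ ∃ s ∈ T, s + d ∈ T
  · -- the smallest distance
    set d := Nat.find hlink with hd
    obtain ⟨hd1, hd2, s0, hs0, hs0d⟩ := Nat.find_spec hlink
    rw [← hd] at hd1 hd2 hs0d
    have hmin : ∀ s ∈ T, ∀ t ∈ T, s < t → 2 * (t - s) ≤ L → d ≤ t - s := by
      intro s hs t ht hst h2
      refine Nat.find_min' hlink ⟨by omega, h2, s, hs, ?_⟩
      have : s + (t - s) = t := by omega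
      rwa [this]
    set S : ℕ → Finset ℕ := fun k => T.filter (fun c =>
      (∀ j ≤ k, c + j * d ∈ T) ∧ ∀ t ∈ T, t < c → L < 2 * (c - t)) with hS
    have hdec : ∀ t, t ∈ T → ∃ k c, c ∈ S k ∧ t = c + k * d := by
      intro t
      induction t using Nat.strong_induction_on with
      | _ t ih =>
        intro ht
        by_cases h : ∀ t' ∈ T, t' < t → L < 2 * (t - t')
        · refine ⟨0, t, ?_, by simp⟩
          rw [hS, mem_filter]
          refine ⟨ht, ?_, h⟩
          intro j hj
          have : j = 0 := by omega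
          subst this
          simpa using ht
        · push Not at h
          obtain ⟨t', ht', hlt, h2⟩ := h
          have h3 := hmin t' ht' t ht hlt h2
          have h4 : t - d ∈ T := link hs0 hs0d ht' ht hlt h2 h3
          obtain ⟨k, c, hc, he⟩ := ih (t - d) (by omega) h4
          refine ⟨k + 1, c, ?_, ?_⟩
          · rw [hS, mem_filter] at hc ⊢
            refine ⟨hc.1, ?_, hc.2.2⟩
            intro j hj
            by_cases h5 : j ≤ k
            · exact hc.2.1 j h5
            · have : j = k + 1 := by omega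
              subst this
              have h6 : c + (k + 1) * d = t := by
                rw [add_mul, one_mul]
                omega
              rwa [h6]
          · rw [add_mul, one_mul]
            omega
    have hcard : T.card ≤ ∑ k ∈ range X, (S k).card := by
      have h1 : T ⊆ (range X).biUnion (fun k => (S k).image (fun c => c + k * d)) := by
        intro t ht
        obtain ⟨k, c, hc, he⟩ := hdec t ht
        rw [mem_biUnion]
        refine ⟨k, ?_, ?_⟩
        · have h2 := (mem_occ.1 ht).1
          rw [mem_range]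
          have : k ≤ k * d := Nat.le_mul_of_pos_right _ (by omega)
          omega
        · rw [mem_image]
          exact ⟨c, hc, he.symm⟩
      refine (card_le_card h1).trans (card_biUnion_le.trans ?_)
      exact sum_le_sum fun k _ => card_image_le
    by_cases hT0 : T.card = 0
    · refine ⟨1, 0, ∅, le_refl _, by simp, by simp [hT0], by omega, by simp, by simp⟩
    have hex : ∃ k < X, T.card ≤ (k + 1) * (k + 2) * (S k).card := by
      by_contra hcon
      push Not at hcon
      have h1 : ∀ k ∈ range X, ((S k).card : ℝ) ≤ T.card * (1 / (((k : ℝ) + 1) * ((k : ℝ) + 2))) := by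
        intro k hk
        have h2 := hcon k (mem_range.1 hk)
        have h3 : (((k : ℝ) + 1) * ((k : ℝ) + 2)) * ((S k).card : ℝ) ≤ T.card := by
          exact_mod_cast h2.le
        rw [mul_one_div, le_div_iff₀ (by positivity)]
        linarith
      have h2 : (T.card : ℝ) ≤ ∑ k ∈ range X, ((S k).card : ℝ) := by exact_mod_cast hcard
      have h3 := h2.trans (sum_le_sum h1)
      rw [← mul_sum, sum_tel] at h3
      have h4 : (0 : ℝ) < T.card := by exact_mod_cast Nat.pos_of_ne_zero hT0
      have h5 : (0 : ℝ) < 1 / ((X : ℝ) + 1) := by positivity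
      nlinarith
    obtain ⟨k, hk, hk2⟩ := hex
    refine ⟨k + 1, d, S k, by omega, filter_subset _ _, ?_, ?_, ?_, ?_⟩
    · exact hk2
    · intro _
      exact ⟨hd1, hd2, s0, hs0, hs0d⟩
    · intro c hc j hj
      rw [hS, mem_filter] at hc
      exact hc.2.1 j (by omega)
    · intro c hc
      rw [hS, mem_filter] at hc
      exact hc.2.2
  · refine ⟨1, 0, T, le_refl _, Subset.refl _, by omega, by omega, ?_, ?_⟩
    · intro c hc k hk
      have : k = 0 := by omega
      subst this
      simpa using hc
    · intro c hc t ht htc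
      by_contra hcon
      refine hlink ⟨c - t, by omega, by omega, t, ht, ?_⟩
      have : t + (c - t) = c := by omega
      rwa [this]

end Pool.Agent.N664.FC
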