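import Pool.Agent.N664.FC.Infinite

/-!
# Sets defined by digits
-/

set_option autoImplicit false

namespace Pool.Agent.N664.FC

open Finset Classical Filter Topology Pool.Agent.W227.FC

/-- the numbers all of whose digits in base `b` are in `D` -/
def digs (b : ℕ) (D : Finset ℕ) : Set ℕ := {n | ∀ d ∈ Nat.digits b n, d ∈ D}

lemma digs_zero (b : ℕ) (D : Finset ℕ) : 0 ∈ digs b D := by
  intro d hd
  simp at hd

lemma digs_iff {b : ℕ} {D : Finset ℕ} (hb : 2 ≤ b) (h0 : 0 ∈ D) (n : ℕ) :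
    n ∈ digs b D ↔ n % b ∈ D ∧ n / b ∈ digs b D := by
  rcases Nat.eq_zero_or_pos n with rfl | hn
  · rw [Nat.zero_mod, Nat.zero_div]
    exact ⟨fun h => ⟨h0, h⟩, fun h => h.2⟩
  · unfold digs
    change (∀ d ∈ Nat.digits b n, d ∈ D) ↔ n % b ∈ D ∧ ∀ d ∈ Nat.digits b (n / b), d ∈ D
    rw [Nat.digits_def' (by omega) hn, List.forall_mem_cons]

lemma digs_split {b : ℕ} {D : Finset ℕ} (hb : 2 ≤ b) (h0 : 0 ∈ D) (k : ℕ) :
    ∀ n : ℕ, n ∈ digs b D ↔ n % b ^ k ∈ digs b D ∧ n / b ^ k ∈ digs b D := by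
  induction k with
  | zero =>
    intro n
    rw [pow_zero, Nat.mod_one, Nat.div_one]
    exact ⟨fun h => ⟨digs_zero b D, h⟩, fun h => h.2⟩
  | succ k ih =>
    intro n
    have h1 : b ^ (k + 1) = b * b ^ k := by rw [pow_succ, mul_comm]
    rw [digs_iff hb h0 n, ih (n / b), digs_iff hb h0 (n % b ^ (k + 1)), h1,
      Nat.mod_mul_right_mod, Nat.mod_mul_right_div_self, Nat.div_div_eq_div_mul]
    tauto

lemma digs_small {b : ℕ} {D : Finset ℕ} {d a : ℕ} (hb : 2 ≤ b) (h0 : 0 ∈ D)
    (hD : ∀ d ∈ D, d < b) (hd : d ∈ D) (ha : a ∈ digs b D) : b * a + d ∈ digs b D := by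
  rw [digs_iff hb h0]
  have h1 := hD d hd
  have h2 : (b * a + d) % b = d := by
    rw [Nat.mul_add_mod, Nat.mod_eq_of_lt h1]
  have h3 : (b * a + d) / b = a := by
    rw [Nat.mul_add_div (by omega), Nat.div_eq_of_lt h1, add_zero]
  rw [h2, h3]
  exact ⟨hd, ha⟩

lemma cnt_digs {b : ℕ} {D : Finset ℕ} (hb : 2 ≤ b) (h0 : 0 ∈ D) (hD : ∀ d ∈ D, d < b) (k : ℕ) :
    D.card ^ k ≤ cnt (digs b D) (b ^ k) := by
  induction k with
  | zero =>
    rw [pow_zero, pow_zero]
    unfold cnt
    rw [Nat.one_le_iff_ne_zero, Ne, card_eq_zero]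
    intro h
    have : (0 : ℕ) ∈ (range 1).filter (fun s => s ∈ digs b D) := by
      rw [mem_filter]
      exact ⟨by simp, digs_zero b D⟩
    rw [h] at this
    simp at this
  | succ k ih =>
    set S := (range (b ^ k)).filter (fun s => s ∈ digs b D) with hS
    have h1 : ((D ×ˢ S).image (fun p => b * p.2 + p.1)).card = D.card * S.card := by
      rw [card_image_of_injOn, card_product]
      rintro ⟨d, a⟩ h ⟨d', a'⟩ h' he
      rw [mem_coe, mem_product] at h h'
      simp only at h h' he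
      have h2 := hD d h.1
      have h3 := hD d' h'.1
      have h4 : a = a' := by
        have e1 : (b * a + d) / b = a := by
          rw [Nat.mul_add_div (by omega), Nat.div_eq_of_lt h2, add_zero]
        have e2 : (b * a' + d') / b = a' := by
          rw [Nat.mul_add_div (by omega), Nat.div_eq_of_lt h3, add_zero]
        rw [← e1, he, e2]
      subst h4
      rw [Prod.mk.injEq]
      exact ⟨by omega, rfl⟩
    have h2 : (D ×ˢ S).image (fun p => b * p.2 + p.1) ⊆
        (range (b ^ (k + 1))).filter (fun s => s ∈ digs b D) := by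
      intro s hs
      rw [mem_image] at hs
      obtain ⟨⟨d, a⟩, h, rfl⟩ := hs
      rw [mem_product, hS, mem_filter, mem_range] at h
      simp only at h ⊢
      rw [mem_filter, mem_range]
      refine ⟨?_, digs_small hb h0 hD h.1 h.2.2⟩
      have h3 := hD d h.1
      have h4 : b * (a + 1) ≤ b * b ^ k := Nat.mul_le_mul_left _ h.2.1
      rw [pow_succ, mul_comm (b ^ k) b]
      have h5 : b * (a + 1) = b * a + b := by ring
      omega
    calc D.card ^ (k + 1) = D.card * D.card ^ k := by rw [pow_succ, mul_comm]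
      _ ≤ D.card * S.card := Nat.mul_le_mul_left _ ih
      _ = ((D ×ˢ S).image (fun p => b * p.2 + p.1)).card := h1.symm
      _ ≤ _ := card_le_card h2

lemma rep_eq (A : Set ℕ) (n : ℕ) :
    rep A n = ((antidiagonal n).filter (fun p => p.1 ∈ A ∧ p.2 ∈ A)).card := by
  unfold rep
  rw [← Set.ncard_coe_finset]
  congr 1
  ext p
  rw [mem_coe, mem_filter, Finset.HasAntidiagonal.mem_antidiagonal]
  change (p.1 ∈ A ∧ p.2 ∈ A ∧ p.1 + p.2 = n) ↔ _
  tauto

lemma rep_digs {b g : ℕ} {D : Finset ℕ} (hb : 2 ≤ b) (h0 : 0 ∈ D) (hD : ∀ d ∈ D, 2 * d < b)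
    (hg : ∀ m, ((D ×ˢ D).filter (fun p => p.1 + p.2 = m)).card ≤ g) (k : ℕ) :
    ∀ n < b ^ k, rep (digs b D) n ≤ g ^ k := by
  induction k with
  | zero =>
    intro n hn
    rw [pow_zero] at hn ⊢
    have := rep_le (digs b D) n
    omega
  | succ k ih =>
    intro n hn
    have h1 : n / b < b ^ k := by
      rw [Nat.div_lt_iff_lt_mul (by omega)]
      rwa [pow_succ] at hn
    have h2 := ih _ h1
    have h3 : rep (digs b D) n ≤
        ((D ×ˢ D).filter (fun p => p.1 + p.2 = n % b)).card * rep (digs b D) (n / b) := by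
      rw [rep_eq, rep_eq, ← card_product]
      apply card_le_card_of_injOn
        (fun p => (((p.1 % b, p.2 % b) : ℕ × ℕ), ((p.1 / b, p.2 / b) : ℕ × ℕ)))
      · rintro ⟨x, y⟩ hp
        rw [mem_coe, mem_filter, Finset.HasAntidiagonal.mem_antidiagonal] at hp
        simp only at hp
        obtain ⟨h4, h5, h6⟩ := hp
        rw [digs_iff hb h0] at h5 h6
        have h7 := hD _ h5.1
        have h8 := hD _ h6.1
        have h9 : n = b * (x / b + y / b) + (x % b + y % b) := by
          rw [← h4]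
          have e1 := Nat.div_add_mod x b
          have e2 := Nat.div_add_mod y b
          rw [mul_add]
          omega
        have h10 : n % b = x % b + y % b := by
          conv_lhs => rw [h9]
          rw [Nat.mul_add_mod, Nat.mod_eq_of_lt (by omega)]
        have h11 : n / b = x / b + y / b := by
          conv_lhs => rw [h9]
          rw [Nat.mul_add_div (by omega), Nat.div_eq_of_lt (show x % b + y % b < b by omega),
            add_zero]
        rw [mem_coe, mem_product, mem_filter, mem_filter, mem_product,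
          Finset.HasAntidiagonal.mem_antidiagonal]
        exact ⟨⟨⟨h5.1, h6.1⟩, h10.symm⟩, h11.symm, h5.2, h6.2⟩
      · rintro ⟨x, y⟩ _ ⟨x', y'⟩ _ he
        simp only [Prod.mk.injEq] at he
        obtain ⟨⟨h4, h5⟩, h6, h7⟩ := he
        rw [Prod.mk.injEq]
        constructor
        · rw [← Nat.div_add_mod x b, ← Nat.div_add_mod x' b, h4, h6]
        · rw [← Nat.div_add_mod y b, ← Nat.div_add_mod y' b, h5, h7]
    calc rep (digs b D) n ≤ _ := h3
      _ ≤ g * g ^ k := Nat.mul_le_mul (hg _) h2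
      _ = g ^ (k + 1) := by rw [pow_succ, mul_comm]

lemma complexity_digs {b : ℕ} {D : Finset ℕ} (hb : 2 ≤ b) (h0 : 0 ∈ D) {k L : ℕ}
    (hL : L ≤ b ^ k) : complexity (digs b D) L ≤ 4 * b ^ k := by
  set A := digs b D with hA
  set q := b ^ k with hq
  have hq0 : 0 < q := by positivity
  set f : Fin q × Bool × Bool → Set (Fin L) := fun z =>
    {i | ((z.1 : ℕ) + i < q ∧ z.2.1 = true ∧ (z.1 : ℕ) + i ∈ A) ∨
      (q ≤ (z.1 : ℕ) + i ∧ z.2.2 = true ∧ (z.1 : ℕ) + i - q ∈ A)} with hf
  have h1 : Set.range (fun s : ℕ => {i : Fin L | s + (i : ℕ) ∈ A}) ⊆ Set.range f := by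
    rintro _ ⟨s, rfl⟩
    refine ⟨(⟨s % q, Nat.mod_lt _ hq0⟩, decide (s / q ∈ A), decide (s / q + 1 ∈ A)), ?_⟩
    ext i
    change (((s % q) + (i : ℕ) < q ∧ decide (s / q ∈ A) = true ∧ (s % q) + (i : ℕ) ∈ A) ∨
      (q ≤ (s % q) + (i : ℕ) ∧ decide (s / q + 1 ∈ A) = true ∧ (s % q) + (i : ℕ) - q ∈ A)) ↔
      s + (i : ℕ) ∈ A
    rw [decide_eq_true_iff, decide_eq_true_iff]
    have h2 := Nat.div_add_mod s q
    have h3 := Nat.mod_lt s hq0
    have h4 := i.2
    by_cases hc : s % q + (i : ℕ) < q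
    · have h5 : s + (i : ℕ) = q * (s / q) + (s % q + i) := by omega
      have h6 : (s + (i : ℕ)) % q = s % q + i := by
        rw [h5, Nat.mul_add_mod, Nat.mod_eq_of_lt (by omega)]
      have h7 : (s + (i : ℕ)) / q = s / q := by
        conv_lhs => rw [h5]
        rw [Nat.mul_add_div hq0, Nat.div_eq_of_lt hc, add_zero]
      have h8 := digs_split hb h0 k (s + (i : ℕ))
      rw [← hq, ← hA, h6, h7] at h8
      rw [h8]
      constructor
      · rintro (⟨-, h9, h10⟩ | ⟨h9, -⟩)
        · exact ⟨h10, h9⟩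
        · omega
      · rintro ⟨h9, h10⟩
        exact Or.inl ⟨hc, h10, h9⟩
    · have h5 : s + (i : ℕ) = q * (s / q + 1) + (s % q + i - q) := by
        rw [mul_add, mul_one]
        omega
      have h6 : (s + (i : ℕ)) % q = s % q + i - q := by
        rw [h5, Nat.mul_add_mod, Nat.mod_eq_of_lt (by omega)]
      have h7 : (s + (i : ℕ)) / q = s / q + 1 := by
        conv_lhs => rw [h5]
        rw [Nat.mul_add_div hq0, Nat.div_eq_of_lt (show s % q + (i : ℕ) - q < q by omega), add_zero]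
      have h8 := digs_split hb h0 k (s + (i : ℕ))
      rw [← hq, ← hA, h6, h7] at h8
      rw [h8]
      constructor
      · rintro (⟨h9, -⟩ | ⟨-, h9, h10⟩)
        · omega
        · exact ⟨h10, h9⟩
      · rintro ⟨h9, h10⟩
        exact Or.inr ⟨by omega, h10, h9⟩
  unfold complexity
  refine (Set.ncard_le_ncard h1 (Set.finite_range f)).trans ?_
  rw [← Set.image_univ]
  refine (Set.ncard_image_le Set.finite_univ).trans ?_
  rw [Set.ncard_univ, Nat.card_eq_fintype_card, Fintype.card_prod, Fintype.card_prod,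
    Fintype.card_fin, Fintype.card_bool]
  omega

/-- the digits -/
def digit (p : ℕ) (a k : ℕ) : ℕ := 2 * p * k + a * k ^ 2 % p

/-- the set of digits -/
def dset (p : ℕ) : Finset ℕ := (({1, 2, 3} : Finset ℕ) ×ˢ range p).image (fun z => digit p z.1 z.2)

lemma digit_lt {p a k : ℕ} (hp : 0 < p) : a * k ^ 2 % p < p := Nat.mod_lt _ hp

lemma dset_zero {p : ℕ} (hp : 0 < p) : 0 ∈ dset p := by
  unfold dset
  rw [mem_image]
  refine ⟨(1, 0), ?_, ?_⟩
  · rw [mem_product, mem_range]
    exact ⟨by simp, hp⟩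
  · simp [digit]

lemma dset_lt {p : ℕ} (hp : 0 < p) : ∀ d ∈ dset p, 2 * d < 4 * p ^ 2 := by
  intro d hd
  unfold dset at hd
  rw [mem_image] at hd
  obtain ⟨⟨a, k⟩, h, rfl⟩ := hd
  rw [mem_product, mem_range] at h
  simp only at h
  have h1 := digit_lt (a := a) (k := k) hp
  unfold digit
  simp only
  have h2 : 2 * p * (k + 1) ≤ 2 * p * p := Nat.mul_le_mul_left _ h.2
  have h3 : 2 * p * (k + 1) = 2 * p * k + 2 * p := by ring
  have h4 : 2 * p * p = 2 * p ^ 2 := by ring
  omega

lemma dset_card {p : ℕ} (hp : p.Prime) (h7 : 7 ≤ p) : 2 * p ≤ (dset p).card := by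
  have h1 : (({1, 2, 3} : Finset ℕ) ×ˢ (Ico 1 p)).image (fun z => digit p z.1 z.2) ⊆ dset p := by
    unfold dset
    apply image_subset_image
    apply product_subset_product (Subset.refl _)
    intro x hx
    rw [mem_Ico] at hx
    exact mem_range.2 hx.2
  have h2 : ((({1, 2, 3} : Finset ℕ) ×ˢ (Ico 1 p)).image (fun z => digit p z.1 z.2)).card =
      3 * (p - 1) := by
    rw [card_image_of_injOn, card_product, Nat.card_Ico]
    · rfl
    rintro ⟨a, k⟩ h ⟨a', k'⟩ h' he
    rw [mem_coe, mem_product, mem_Ico] at h h'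
    simp only at h h' he
    obtain ⟨h3, h4⟩ := h
    obtain ⟨h3', h4'⟩ := h'
    have hl := digit_lt (p := p) (a := a) (k := k) (by omega)
    have hl' := digit_lt (p := p) (a := a') (k := k') (by omega)
    unfold digit at he
    have hk : k = k' := by
      have e1 : (2 * p * k + a * k ^ 2 % p) / (2 * p) = k := by
        rw [Nat.mul_add_div (by omega), Nat.div_eq_of_lt (by omega), add_zero]
      have e2 : (2 * p * k' + a' * k' ^ 2 % p) / (2 * p) = k' := by
        rw [Nat.mul_add_div (by omega), Nat.div_eq_of_lt (by omega), add_zero]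
      rw [← e1, he, e2]
    subst hk
    have h5 : a * k ^ 2 ≡ a' * k ^ 2 [MOD p] := by
      unfold Nat.ModEq
      omega
    have h6 : Nat.Coprime p (k ^ 2) := by
      apply Nat.Coprime.pow_right
      rw [Nat.Prime.coprime_iff_not_dvd hp]
      intro hd
      have := Nat.le_of_dvd (by omega) hd
      omega
    have h8 : a ≡ a' [MOD p] := Nat.ModEq.cancel_right_of_coprime h6 h5
    have h9 : a = a' := by
      simp only [mem_insert, mem_singleton] at h3 h3'
      unfold Nat.ModEq at h8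
      rw [Nat.mod_eq_of_lt (by omega), Nat.mod_eq_of_lt (by omega)] at h8
      exact h8
    rw [h9]
  have h3 := card_le_card h1
  omega

lemma pair_bound {p : ℕ} (hp : p.Prime) (h7 : 7 ≤ p) {a a' : ℕ} (ha : 1 ≤ a) (ha3 : a ≤ 3)
    (ha' : 1 ≤ a') (ha3' : a' ≤ 3) (m : ℕ) :
    ((range p ×ˢ range p).filter (fun z => digit p a z.1 + digit p a' z.2 = m)).card ≤ 2 := by
  have : Fact p.Prime := ⟨hp⟩
  by_contra hcon
  push Not at hcon
  rw [two_lt_card] at hcon
  obtain ⟨z1, h1, z2, h2, z3, h3, h12, h13, h23⟩ := hcon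
  have key : ∀ z ∈ (range p ×ˢ range p).filter (fun z => digit p a z.1 + digit p a' z.2 = m),
      z.1 < p ∧ z.1 + z.2 = m / (2 * p) ∧
      (a : ZMod p) * (z.1 : ZMod p) ^ 2 + a' * (z.2 : ZMod p) ^ 2 = ((m % (2 * p) : ℕ) : ZMod p) := by
    rintro ⟨k, l⟩ hz
    rw [mem_filter, mem_product, mem_range, mem_range] at hz
    simp only at hz ⊢
    obtain ⟨⟨h4, h5⟩, h6⟩ := hz
    have hl := digit_lt (p := p) (a := a) (k := k) (by omega)
    have hl' := digit_lt (p := p) (a := a') (k := l) (by omega)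
    have h8 : m = 2 * p * (k + l) + (a * k ^ 2 % p + a' * l ^ 2 % p) := by
      rw [← h6]
      unfold digit
      ring
    have h9 : m / (2 * p) = k + l := by
      rw [h8, Nat.mul_add_div (by omega), Nat.div_eq_of_lt (by omega), add_zero]
    have h10 : m % (2 * p) = a * k ^ 2 % p + a' * l ^ 2 % p := by
      rw [h8, Nat.mul_add_mod, Nat.mod_eq_of_lt (by omega)]
    refine ⟨h4, h9.symm, ?_⟩
    rw [h10]
    push_cast
    rw [ZMod.natCast_mod, ZMod.natCast_mod]
    push_cast
    ring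
  obtain ⟨b1, c1, e1⟩ := key z1 h1
  obtain ⟨b2, c2, e2⟩ := key z2 h2
  obtain ⟨b3, c3, e3⟩ := key z3 h3
  set s : ℕ := m / (2 * p) with hs
  -- distinct first coordinates
  have d12 : (z1.1 : ZMod p) ≠ z2.1 := by
    intro h
    rw [ZMod.natCast_eq_natCast_iff'] at h
    rw [Nat.mod_eq_of_lt b1, Nat.mod_eq_of_lt b2] at h
    apply h12
    ext
    · exact h
    · omega
  have d13 : (z1.1 : ZMod p) ≠ z3.1 := by
    intro h
    rw [ZMod.natCast_eq_natCast_iff'] at h
    rw [Nat.mod_eq_of_lt b1, Nat.mod_eq_of_lt b3] at h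
    apply h13
    ext
    · exact h
    · omega
  have d23 : (z2.1 : ZMod p) ≠ z3.1 := by
    intro h
    rw [ZMod.natCast_eq_natCast_iff'] at h
    rw [Nat.mod_eq_of_lt b2, Nat.mod_eq_of_lt b3] at h
    apply h23
    ext
    · exact h
    · omega
  have f1 : (z1.2 : ZMod p) = s - z1.1 := by
    have : ((z1.1 + z1.2 : ℕ) : ZMod p) = s := by rw [c1]
    push_cast at this
    rw [← this]
    ring
  have f2 : (z2.2 : ZMod p) = s - z2.1 := by
    have : ((z2.1 + z2.2 : ℕ) : ZMod p) = s := by rw [c2]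
    push_cast at this
    rw [← this]
    ring
  have f3 : (z3.2 : ZMod p) = s - z3.1 := by
    have : ((z3.1 + z3.2 : ℕ) : ZMod p) = s := by rw [c3]
    push_cast at this
    rw [← this]
    ring
  rw [f1] at e1
  rw [f2] at e2
  rw [f3] at e3
  have g12 : ((a : ZMod p) + a') * ((z1.1 : ZMod p) + z2.1) = 2 * a' * s := by
    have : ((z1.1 : ZMod p) - z2.1) * (((a : ZMod p) + a') * ((z1.1 : ZMod p) + z2.1) -
        2 * a' * s) = 0 := by
      linear_combination e1 - e2
    rcases mul_eq_zero.1 this with h | h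
    · exact absurd (sub_eq_zero.1 h) d12
    · exact sub_eq_zero.1 h
  have g13 : ((a : ZMod p) + a') * ((z1.1 : ZMod p) + z3.1) = 2 * a' * s := by
    have : ((z1.1 : ZMod p) - z3.1) * (((a : ZMod p) + a') * ((z1.1 : ZMod p) + z3.1) -
        2 * a' * s) = 0 := by
      linear_combination e1 - e3
    rcases mul_eq_zero.1 this with h | h
    · exact absurd (sub_eq_zero.1 h) d13
    · exact sub_eq_zero.1 h
  have g : ((a : ZMod p) + a') * ((z2.1 : ZMod p) - z3.1) = 0 := by
    linear_combination g12 - g13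
  rcases mul_eq_zero.1 g with h | h
  · have h4 : ((a + a' : ℕ) : ZMod p) = 0 := by
      push_cast
      exact h
    rw [ZMod.natCast_eq_zero_iff] at h4
    have := Nat.le_of_dvd (by omega) h4
    omega
  · exact d23 (sub_eq_zero.1 h)

lemma dset_rep {p : ℕ} (hp : p.Prime) (h7 : 7 ≤ p) (m : ℕ) :
    ((dset p ×ˢ dset p).filter (fun z => z.1 + z.2 = m)).card ≤ 18 := by
  set T : Finset ℕ := {1, 2, 3} with hT
  have hTc : T.card = 3 := rfl
  have h1 : (dset p ×ˢ dset p).filter (fun z => z.1 + z.2 = m) ⊆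
      (T ×ˢ T).biUnion (fun w => ((range p ×ˢ range p).filter
        (fun z => digit p w.1 z.1 + digit p w.2 z.2 = m)).image
          (fun z => (digit p w.1 z.1, digit p w.2 z.2))) := by
    rintro ⟨x, y⟩ hz
    rw [mem_filter, mem_product] at hz
    simp only at hz
    obtain ⟨⟨hx, hy⟩, hm⟩ := hz
    unfold dset at hx hy
    rw [mem_image] at hx hy
    obtain ⟨⟨a, k⟩, h2, rfl⟩ := hx
    obtain ⟨⟨a', l⟩, h3, rfl⟩ := hy
    rw [mem_product] at h2 h3
    rw [mem_biUnion]
    refine ⟨(a, a'), mem_product.2 ⟨h2.1, h3.1⟩, ?_⟩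
    rw [mem_image]
    refine ⟨(k, l), ?_, rfl⟩
    rw [mem_filter, mem_product]
    exact ⟨⟨h2.2, h3.2⟩, hm⟩
  refine (card_le_card h1).trans ?_
  refine (card_biUnion_le_card_mul _ _ 2 ?_).trans ?_
  · rintro ⟨a, a'⟩ hw
    rw [mem_product] at hw
    simp only at hw ⊢
    refine card_image_le.trans ?_
    have h2 : 1 ≤ a ∧ a ≤ 3 := by
      have := hw.1
      rw [hT] at this
      simp only [mem_insert, mem_singleton] at this
      omega
    have h3 : 1 ≤ a' ∧ a' ≤ 3 := by
      have := hw.2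
      rw [hT] at this
      simp only [mem_insert, mem_singleton] at this
      omega
    exact pair_bound hp h7 h2.1 h2.2 h3.1 h3.2 m
  · rw [card_product, hTc]

end Pool.Agent.N664.FC
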