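import Pool.Agent.N664.FC.Sharp

/-!
# Optimality of the exponent
-/

set_option autoImplicit false

namespace Pool.Agent.N664.FC

open Finset Classical Filter Topology Pool.Agent.W227.FC

lemma log18 : Real.log 18 ≤ 3 := by
  rw [Real.log_le_iff_le_exp (by norm_num)]
  have h1 : Real.exp 3 = Real.exp 1 ^ 3 := by
    rw [← Real.exp_nat_mul]
    norm_num
  rw [h1]
  have h2 := Real.exp_one_gt_d9
  calc (18 : ℝ) ≤ 2.7182818283 ^ 3 := by norm_num
    _ ≤ Real.exp 1 ^ 3 := by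
      apply pow_le_pow_left₀ (by norm_num) h2.le

/-- a suitable prime -/
lemma exists_p {Φ : ℝ} (hΦ : 4096 ≤ Φ) :
    ∃ p : ℕ, p.Prime ∧ 7 ≤ p ∧ 16 * (p : ℝ) ^ 2 ≤ Φ ∧ Φ ≤ 64 * (p : ℝ) ^ 2 := by
  have hF : 4096 ≤ ⌊Φ⌋₊ := Nat.le_floor (by exact_mod_cast hΦ)
  set s := Nat.sqrt ⌊Φ⌋₊ with hs
  have hs64 : 64 ≤ s := by
    rw [hs, Nat.le_sqrt]
    omega
  obtain ⟨p, hp, h1, h2⟩ := Nat.exists_prime_lt_and_le_two_mul (s / 8) (by omega)
  refine ⟨p, hp, by omega, ?_, ?_⟩
  · have h3 : 4 * p ≤ s := by omega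
    have h4 : s * s ≤ ⌊Φ⌋₊ := Nat.sqrt_le ⌊Φ⌋₊
    have h5 : (4 * p) * (4 * p) ≤ ⌊Φ⌋₊ := (Nat.mul_le_mul h3 h3).trans h4
    have h6 : (((4 * p) * (4 * p) : ℕ) : ℝ) ≤ Φ := by
      refine le_trans ?_ (Nat.floor_le (by linarith))
      exact_mod_cast h5
    push_cast at h6
    linarith
  · have h3 : s + 1 ≤ 8 * p := by omega
    have h4 : ⌊Φ⌋₊ < (s + 1) * (s + 1) := Nat.lt_succ_sqrt ⌊Φ⌋₊
    have h5 : ⌊Φ⌋₊ + 1 ≤ (8 * p) * (8 * p) := by
      have := Nat.mul_le_mul h3 h3
      omega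
    have h6 : Φ ≤ ((⌊Φ⌋₊ + 1 : ℕ) : ℝ) := by
      push_cast
      exact (Nat.lt_floor_add_one Φ).le
    have h7 : ((⌊Φ⌋₊ + 1 : ℕ) : ℝ) ≤ (((8 * p) * (8 * p) : ℕ) : ℝ) := by exact_mod_cast h5
    push_cast at h7 h6
    linarith

/-- **Optimality.** -/
theorem sharp {Φ : ℝ} (hΦ : 4096 ≤ Φ) :
    ∃ A : Set ℕ, A.Infinite ∧
      (∀ n : ℕ, 1 ≤ n → ((Nat.nth (· ∈ A) (n - 1) : ℕ) : ℝ) ≤ Φ * (n : ℝ) ^ 2) ∧
      (∀ L : ℕ, 1 ≤ L → (complexity A L : ℝ) ≤ Φ * L) ∧
      ∀ n : ℕ, 1 ≤ n → (rep A n : ℝ) ≤ 18 * (n : ℝ) ^ (6 / Real.log Φ) := by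
  obtain ⟨p, hp, h7, hp1, hp2⟩ := exists_p hΦ
  have hΦ0 : 0 < Φ := by linarith
  set b := 4 * p ^ 2 with hb
  have hb2 : 2 ≤ b := by
    have : 7 * 7 ≤ p * p := Nat.mul_le_mul h7 h7
    have h3 : p ^ 2 = p * p := by ring
    omega
  have hbr : (b : ℝ) = 4 * (p : ℝ) ^ 2 := by
    rw [hb]
    push_cast
    ring
  have hb1r : (1 : ℝ) < b := by exact_mod_cast (by omega : 1 < b)
  have hb0r : (0 : ℝ) < b := by linarith
  have h0 := dset_zero (p := p) (by omega)
  have hD2 := dset_lt (p := p) (by omega)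
  have hD1 : ∀ d ∈ dset p, d < b := fun d hd => by
    have := hD2 d hd
    omega
  set A := digs b (dset p) with hA
  -- counting
  have hcnt : ∀ N : ℕ, 1 ≤ N → N ≤ b * cnt A N ^ 2 := by
    intro N hN
    set k := Nat.log b N with hk
    have h1 : b ^ k ≤ N := Nat.pow_log_le_self b (by omega)
    have h2 : N < b ^ (k + 1) := Nat.lt_pow_succ_log_self (by omega) N
    have h3 : (2 * p) ^ k ≤ cnt A (b ^ k) :=
      (Nat.pow_le_pow_left (dset_card hp h7) k).trans (cnt_digs hb2 h0 hD1 k)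
    have h4 : cnt A (b ^ k) ≤ cnt A N := by
      unfold cnt
      apply card_le_card
      apply filter_subset_filter
      intro x hx
      rw [mem_range] at hx ⊢
      omega
    have h5 : b ^ k = ((2 * p) ^ k) ^ 2 := by
      rw [← pow_mul, mul_comm k 2, pow_mul, hb]
      congr 1
      ring
    have h6 : ((2 * p) ^ k) ^ 2 ≤ cnt A N ^ 2 := Nat.pow_le_pow_left (h3.trans h4) 2
    calc N ≤ b ^ (k + 1) := h2.le
      _ = b * b ^ k := by rw [pow_succ, mul_comm]
      _ ≤ b * cnt A N ^ 2 := by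
        apply Nat.mul_le_mul_left
        rw [h5]
        exact h6
  have hinf : A.Infinite := by
    intro hfin
    obtain ⟨M, hM⟩ := hfin.bddAbove
    have h1 : ∀ N, cnt A N ≤ M + 1 := by
      intro N
      unfold cnt
      have h2 : (range N).filter (fun s => s ∈ A) ⊆ range (M + 1) := by
        intro s hs
        rw [mem_filter] at hs
        rw [mem_range]
        have := hM hs.2
        omega
      have := card_le_card h2
      rwa [card_range] at this
    have h2 := hcnt (b * (M + 1) ^ 2 + 1) (by omega)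
    have h3 : cnt A (b * (M + 1) ^ 2 + 1) ^ 2 ≤ (M + 1) ^ 2 := Nat.pow_le_pow_left (h1 _) 2
    have h4 := Nat.mul_le_mul_left b h3
    omega
  refine ⟨A, hinf, ?_, ?_, ?_⟩
  · intro n hn
    set N := Nat.nth (· ∈ A) (n - 1) with hN
    rcases Nat.eq_zero_or_pos N with h1 | h1
    · rw [h1]
      push_cast
      positivity
    · have h2 := hcnt N h1
      have h3 : cnt A N = n - 1 := by
        have h4 : cnt A N = Nat.count (· ∈ A) N := by
          rw [Nat.count_eq_card_filter_range]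
          unfold cnt
          congr
        rw [h4, hN]
        exact Nat.count_nth_of_infinite (p := (· ∈ A)) hinf _
      rw [h3] at h2
      have h4 : (n - 1) ^ 2 ≤ n ^ 2 := Nat.pow_le_pow_left (by omega) 2
      have h5 : N ≤ b * n ^ 2 := h2.trans (Nat.mul_le_mul_left _ h4)
      have h6 : (N : ℝ) ≤ b * (n : ℝ) ^ 2 := by exact_mod_cast h5
      have h7 : (b : ℝ) * (n : ℝ) ^ 2 ≤ Φ * (n : ℝ) ^ 2 := by
        apply mul_le_mul_of_nonneg_right _ (by positivity)
        rw [hbr]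
        nlinarith
      exact h6.trans h7
  · intro L hL
    set k := Nat.log b L with hk
    have h1 : b ^ k ≤ L := Nat.pow_log_le_self b (by omega)
    have h2 : L < b ^ (k + 1) := Nat.lt_pow_succ_log_self (by omega) L
    have h3 : complexity A L ≤ 4 * b ^ (k + 1) := complexity_digs hb2 h0 h2.le
    have h4 : b ^ (k + 1) ≤ b * L := by
      rw [pow_succ, mul_comm]
      exact Nat.mul_le_mul_left _ h1
    have h5 : complexity A L ≤ 4 * b * L := by
      calc complexity A L ≤ 4 * b ^ (k + 1) := h3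
        _ ≤ 4 * (b * L) := Nat.mul_le_mul_left _ h4
        _ = 4 * b * L := by ring
    have h6 : (complexity A L : ℝ) ≤ 4 * b * L := by exact_mod_cast h5
    refine h6.trans ?_
    apply mul_le_mul_of_nonneg_right _ (by positivity)
    rw [hbr]
    linarith
  · intro n hn
    have hn1 : (1 : ℝ) ≤ n := by exact_mod_cast hn
    have hn0 : (0 : ℝ) < n := by linarith
    set k := Nat.log b n with hk
    have h1 : b ^ k ≤ n := Nat.pow_log_le_self b (by omega)
    have h2 : n < b ^ (k + 1) := Nat.lt_pow_succ_log_self (by omega) n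
    have h3 : rep A n ≤ 18 ^ (k + 1) := rep_digs hb2 h0 hD2 (dset_rep hp h7) (k + 1) n h2
    have h4 : (rep A n : ℝ) ≤ 18 * 18 ^ k := by
      have : (rep A n : ℝ) ≤ 18 ^ (k + 1) := by exact_mod_cast h3
      rw [pow_succ] at this
      linarith
    refine h4.trans ?_
    apply mul_le_mul_of_nonneg_left _ (by norm_num)
    have hlogΦ : 0 < Real.log Φ := Real.log_pos (by linarith)
    have hlogb : 0 < Real.log b := Real.log_pos hb1r
    -- `log Φ ≤ 2 log b`
    have h5 : Real.log Φ ≤ 2 * Real.log b := by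
      rw [show 2 * Real.log (b : ℝ) = Real.log ((b : ℝ) ^ 2) by rw [Real.log_pow]; norm_num]
      apply Real.log_le_log hΦ0
      have h6 : Φ ≤ 16 * b := by
        rw [hbr]
        linarith
      have h7 : (16 : ℝ) ≤ b := by linarith
      nlinarith
    have h6 : (k : ℝ) * Real.log b ≤ Real.log n := by
      have h7 : ((b ^ k : ℕ) : ℝ) ≤ n := by exact_mod_cast h1
      push_cast at h7
      have h8 := Real.log_le_log (by positivity) h7
      rwa [Real.log_pow] at h8
    have h7 : (18 : ℝ) ^ k = Real.exp (k * Real.log 18) := by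
      rw [← Real.log_pow, Real.exp_log (by positivity)]
    rw [h7, Real.rpow_def_of_pos hn0]
    apply Real.exp_le_exp.2
    have hk0 : (0 : ℝ) ≤ k := by positivity
    have h8 : (k : ℝ) * Real.log 18 ≤ k * 3 := mul_le_mul_of_nonneg_left log18 hk0
    have h9 : (k : ℝ) * Real.log Φ ≤ 2 * Real.log n := by
      have := mul_le_mul_of_nonneg_left h5 hk0
      linarith
    have h10 : (k : ℝ) ≤ 2 * Real.log n / Real.log Φ := by
      rw [le_div_iff₀ hlogΦ]
      exact h9
    calc (k : ℝ) * Real.log 18 ≤ k * 3 := h8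
      _ ≤ 2 * Real.log n / Real.log Φ * 3 := mul_le_mul_of_nonneg_right h10 (by norm_num)
      _ = Real.log n * (6 / Real.log Φ) := by ring

end Pool.Agent.N664.FC
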