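import Pool.Agent.N664.FC.Gaps

/-!
# The step: from a word with many occurrences to a longer one with a larger symmetric set
-/

set_option autoImplicit false

namespace Pool.Agent.N664.FC

open Finset Classical Pool.Agent.W227.FC

/-- The state: the current word is the one of length `L` at `u`; it contains the symmetric set `Y`,
and the previous word, of length `P`, at the place `x`, with the symmetric set `Z` in it; two
occurrences of the current word below `X` which overlap in at least one half of it are at a distance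
larger than `P / 2`. -/
structure IsState (A : Set ℕ) (X L u : ℕ) (Y : Finset ℕ) (P x : ℕ) (Z : Finset ℕ) : Prop where
  hY : ∀ y ∈ Y, y ∈ fac A L u
  hYs : Symm Y
  hP : x + P ≤ L
  hZ : ∀ z ∈ Z, z < P ∧ x + z ∈ fac A L u
  hZs : Symm Z
  gap : ∀ s ∈ occ A X L u, ∀ t ∈ occ A X L u, s < t → 2 * (t - s) ≤ L → P < 2 * (t - s)

/-- The symmetric set at a run. -/
lemma inner {A : Set ℕ} {X L u : ℕ} {Y : Finset ℕ} {P x : ℕ} {Z : Finset ℕ}
    (hS : IsState A X L u Y P x Z) {q d : ℕ} {C : Finset ℕ} (hq : 1 ≤ q)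
    (hC : ∀ c ∈ C, ∀ k < q, c + k * d ∈ occ A X L u)
    (hd : 2 ≤ q → 1 ≤ d ∧ 2 * d ≤ L ∧ ∃ s ∈ occ A X L u, s + d ∈ occ A X L u) :
    ∃ W : Finset ℕ, Y.card ≤ W.card ∧ q * Z.card ≤ 2 * W.card ∧ Symm W ∧
      (∀ w ∈ W, w < L + (q - 1) * d) ∧ ∀ c ∈ C, ∀ w ∈ W, c + w ∈ A := by
  set t := (q - 1) / 2 + 1 with ht
  obtain ⟨W, hW1, hW2, hW3⟩ := copies (L := P) (x := x) (D := 2 * d) (t := t) (Y := Z)
    (fun z hz => (hS.hZ z hz).1) hS.hZs (by omega) (by
      intro h2
      obtain ⟨h3, h4, s, h5, h6⟩ := hd (by omega)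
      have := hS.gap s h5 (s + d) h6 (by omega) (by omega)
      omega)
  have hqt : q ≤ 2 * t := by omega
  have hqZ : q * Z.card ≤ 2 * W.card := by
    rw [hW1]
    calc q * Z.card ≤ 2 * t * Z.card := Nat.mul_le_mul_right _ hqt
      _ = 2 * (t * Z.card) := by ring
  by_cases hc : W.card ≤ Y.card
  · refine ⟨Y, le_refl _, by omega, hS.hYs, ?_, ?_⟩
    · intro y hy
      have := (mem_fac.1 (hS.hY y hy)).1
      omega
    · intro c hcC y hy
      have h1 := hC c hcC 0 (by omega)
      rw [zero_mul, add_zero, mem_occ] at h1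
      have h2 := hS.hY y hy
      rw [← h1.2, mem_fac] at h2
      exact h2.2
  · refine ⟨W, by omega, hqZ, hW2, ?_, ?_⟩
    · intro w hw
      obtain ⟨k, hk, z, hz, rfl⟩ := hW3 w hw
      have h1 := (hS.hZ z hz).1
      have h2 := hS.hP
      have h3 : k * (2 * d) ≤ (q - 1) * d := by
        calc k * (2 * d) = (2 * k) * d := by ring
          _ ≤ (q - 1) * d := Nat.mul_le_mul_right _ (by omega)
      omega
    · intro c hcC w hw
      obtain ⟨k, hk, z, hz, rfl⟩ := hW3 w hw
      have h1 := hC c hcC (2 * k) (by omega)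
      rw [mem_occ] at h1
      have h2 := (hS.hZ z hz).2
      rw [← h1.2, mem_fac] at h2
      have e : c + (x + k * (2 * d) + z) = c + 2 * k * d + (x + z) := by ring
      rw [e]
      exact h2.2

/-- two occurrences of the new word are not too close -/
lemma new_gap {A : Set ℕ} {X L u L' u' c c2 : ℕ} (hc : c ∈ occ A X L u) (hc2 : c2 ∈ occ A X L u)
    (hlt : c < c2) (hstart : ∀ t ∈ occ A X L u, t < c2 → L < 2 * (c2 - t)) (hu' : u' ≤ c)
    (hin : c2 + L ≤ u' + L') :
    ∀ s ∈ occ A X L' u', ∀ t ∈ occ A X L' u', s < t → 2 * (t - s) ≤ L' → L < 2 * (t - s) := by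
  intro s hs t ht hst h2
  by_contra hcon
  set δ := t - s with hδ
  rw [mem_occ] at hs ht hc hc2
  have hper : ∀ i, i + δ < L' → (u' + i ∈ A ↔ u' + i + δ ∈ A) := by
    intro i hi
    refine word_period (A := A) (L := L') (s := s) (d := δ) (t := u') ?_ hs.2.symm hi
    have : s + δ = t := by omega
    rw [this, hs.2, ht.2]
  have hk : ∀ k, c + k * δ + L ≤ u' + L' → fac A L (c + k * δ) = fac A L c := by
    intro k
    induction k with
    | zero => intro _; simp
    | succ k ih =>
      intro h3
      have h4 : (k + 1) * δ = k * δ + δ := by ring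
      rw [h4] at h3 ⊢
      rw [← ih (by omega)]
      ext i
      rw [mem_fac, mem_fac]
      have h5 : i < L → (c + k * δ + i ∈ A ↔ c + (k * δ + δ) + i ∈ A) := by
        intro hi
        have h6 := hper (c + k * δ + i - u') (by omega)
        have e1 : u' + (c + k * δ + i - u') = c + k * δ + i := by omega
        rw [e1] at h6
        have e2 : c + k * δ + i + δ = c + (k * δ + δ) + i := by ring
        rwa [e2] at h6
      constructor
      · rintro ⟨h6, h7⟩
        exact ⟨h6, (h5 h6).2 h7⟩
      · rintro ⟨h6, h7⟩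
        exact ⟨h6, (h5 h6).1 h7⟩
  set k := (c2 - c - 1) / δ with hkdef
  have h3 : k * δ ≤ c2 - c - 1 := Nat.div_mul_le_self _ _
  have h4 : c2 - c - 1 < (k + 1) * δ := by
    have h5 := Nat.div_add_mod (c2 - c - 1) δ
    have h6 := Nat.mod_lt (c2 - c - 1) (by omega : δ > 0)
    rw [← hkdef] at h5
    calc c2 - c - 1 = δ * k + (c2 - c - 1) % δ := h5.symm
      _ < δ * k + δ := by omega
      _ = (k + 1) * δ := by ring
  have h5 : (k + 1) * δ = k * δ + δ := by ring
  rw [h5] at h4
  have h6 := hk k (by omega)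
  have h7 := hstart (c + k * δ) (mem_occ.2 ⟨by omega, by rw [h6, hc.2]⟩) (by omega)
  omega

theorem step {A : Set ℕ} {X L u : ℕ} {Y : Finset ℕ} {P x : ℕ} {Z : Finset ℕ} (hL : 1 ≤ L)
    (hS : IsState A X L u Y P x Z) {r : ℝ} (hr0 : 0 < r) (hr1 : r < 1) :
    ∃ q κ : ℕ, 1 ≤ q ∧ (occ A X L u).card ≤ q * (q + 1) * κ ∧
      (1 ≤ κ → ∃ (s : ℕ) (W : Finset ℕ), Symm W ∧ (∀ w ∈ W, s + w ∈ A) ∧ Y.card ≤ W.card ∧
        q * Z.card ≤ 2 * W.card) ∧
      (3 ≤ κ → ∃ (s : ℕ) (W : Finset ℕ), Symm W ∧ (∀ w ∈ W, s + w ∈ A) ∧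
        2 * Y.card ≤ W.card) ∧
      (8 ≤ κ → ∃ i : ℕ, 2 ^ i ≤ X ∧ (8 ≤ (1 - r) * r ^ i * κ →
        ∃ (L' u' x' : ℕ) (Y' : Finset ℕ), IsState A X L' u' Y' L x' Y ∧
          2 * Y.card ≤ Y'.card ∧ q * Z.card ≤ Y'.card ∧ 4 * (2 ^ i * L) ≤ L' ∧ L' ≤ 4 * X ∧
          L' * κ ≤ 32 * X ∧
          (1 - r) * r ^ i * κ * L' ≤ 32 * (cplx A L' * (occ A X L' u').card))) := by
  obtain ⟨q, d, C, hq, hCT, hcard, hd, hC, hstart⟩ := clusters A X L u
  obtain ⟨W, hWY, hWZ, hWs, hWV, hWA⟩ := inner hS hq hC hd
  set V := L + (q - 1) * d with hV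
  -- distances of the starts
  have hgap : ∀ c ∈ C, ∀ c' ∈ C, c < c' → V ≤ 2 * (c' - c) := by
    intro c hc c' hc' hlt
    by_cases hq2 : 2 ≤ q
    · obtain ⟨hd1, hd2, -⟩ := hd hq2
      have h1 : ∀ k, k < q → c + k * d < c' := by
        intro k
        induction k with
        | zero => intro _; simpa using hlt
        | succ k ih =>
          intro hk
          have h2 := ih (by omega)
          have h3 := hstart c' hc' _ (hC c hc k (by omega)) h2
          have h4 : (k + 1) * d = k * d + d := by ring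
          rw [h4]
          omega
      have h2 := h1 (q - 1) (by omega)
      have h3 := hstart c' hc' _ (hC c hc (q - 1) (by omega)) h2
      omega
    · have h1 : q = 1 := by omega
      have h2 := hstart c' hc' c (hCT hc) hlt
      subst h1
      simp only [Nat.sub_self, zero_mul, add_zero] at hV
      omega
  refine ⟨q, C.card, hq, hcard, ?_, ?_, ?_⟩
  · intro h1
    obtain ⟨c, hc⟩ := card_pos.1 (by omega : 0 < C.card)
    exact ⟨c, W, hWs, fun w hw => hWA c hc w hw, hWY, hWZ⟩
  · intro h3
    obtain ⟨T, hTC, hT2, hTgap⟩ := thin2 hgap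
    obtain ⟨a, ha, b, hb, hab⟩ := one_lt_card.1 (by omega : 1 < T.card)
    obtain ⟨c, c', hc, hc', hlt⟩ : ∃ c c', c ∈ T ∧ c' ∈ T ∧ c < c' := by
      rcases lt_or_gt_of_ne hab with h | h
      · exact ⟨a, b, ha, hb, h⟩
      · exact ⟨b, a, hb, ha, h⟩
    obtain ⟨W', h1, h2, h4⟩ := copies (L := V) (x := 0) (D := c' - c) (t := 2) (Y := W) hWV hWs
      (by norm_num) (fun _ => hTgap c hc c' hc' hlt)
    refine ⟨c, W', h2, ?_, by omega⟩
    intro w hw
    obtain ⟨k, hk, y, hy, rfl⟩ := h4 w hw
    have : k = 0 ∨ k = 1 := by omega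
    rcases this with rfl | rfl
    · have := hWA c (hTC hc) y hy
      simpa using this
    · have := hWA c' (hTC hc') y hy
      have e : c + (0 + 1 * (c' - c) + y) = c' + y := by omega
      rwa [e]
  · intro h8
    have hV1 : 1 ≤ V := by omega
    have hCX : ∀ c ∈ C, c < X := fun c hc => (mem_occ.1 (hCT hc)).1
    obtain ⟨i, B, nx, hBC, hBne, hBcard, hBX, hB⟩ := gap_class hV1 hCX hgap hr0 hr1 h8
    set n' := 2 ^ i * V with hn'
    have hn'1 : 1 ≤ n' := Nat.one_le_iff_ne_zero.2 (by positivity)
    have hVn' : V ≤ n' := Nat.le_mul_of_pos_left _ (by positivity)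
    refine ⟨i, ?_, ?_⟩
    · obtain ⟨b, hb⟩ := hBne
      obtain ⟨h1, h2, -⟩ := hB b hb
      have h3 := hCX _ h1
      have h4 : 2 ^ i ≤ n' := Nat.le_mul_of_pos_right _ (by omega)
      omega
    intro hbig
    -- drop the elements below `n'`
    set B' := B.filter (fun c => n' ≤ c) with hB'
    have hdrop : B.card ≤ B'.card + 1 := by
      have h1 := card_filter_add_card_filter_not (s := B) (fun c => n' ≤ c)
      rw [← hB'] at h1
      have h2 : (B.filter (fun c => ¬ n' ≤ c)).card ≤ 1 := by
        rw [card_le_one]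
        intro a ha b hb
        rw [mem_filter] at ha hb
        rcases lt_trichotomy a b with h | h | h
        · exfalso
          have h3 := (hB a ha.1).2.2.2 b hb.1 h
          have h4 := (hB a ha.1).2.1
          omega
        · exact h
        · exfalso
          have h3 := (hB b hb.1).2.2.2 a ha.1 h
          have h4 := (hB b hb.1).2.1
          omega
      omega
    have hBreal : (2 : ℝ) ≤ B.card := by linarith
    have hB2 : 2 ≤ B.card := by exact_mod_cast hBreal
    have hB'2 : B.card ≤ 2 * B'.card := by omega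
    -- the windows
    set U := B'.biUnion (fun c => Ioc (c - n') c) with hU
    have hUcard : U.card = B'.card * n' := by
      rw [hU, card_biUnion]
      · rw [sum_congr rfl (g := fun _ => n'), sum_const, smul_eq_mul]
        intro c hc
        rw [hB', mem_filter] at hc
        rw [Nat.card_Ioc]
        omega
      · intro a ha b hb hab
        change Disjoint (Ioc (a - n') a) (Ioc (b - n') b)
        rw [Finset.disjoint_left]
        intro y hy1 hy2
        rw [mem_Ioc] at hy1 hy2
        rw [mem_coe, hB', mem_filter] at ha hb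
        rcases lt_or_gt_of_ne hab with h | h
        · have h3 := (hB a ha.1).2.2.2 b hb.1 h
          have h4 := (hB a ha.1).2.1
          omega
        · have h3 := (hB b hb.1).2.2.2 a ha.1 h
          have h4 := (hB b hb.1).2.1
          omega
    have hUne : U.Nonempty := by
      rw [← card_pos, hUcard]
      have : 0 < B'.card := by omega
      positivity
    set L' := 4 * n' with hL'
    obtain ⟨w', hw', hfib, hfibne⟩ := exists_fiber U
      ((range L').powerset.filter (fun w => ∃ s, fac A L' s = w)) (fun s => fac A L' s) (by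
        intro s _
        rw [mem_filter, mem_powerset]
        exact ⟨filter_subset _ _, s, rfl⟩) hUne
    obtain ⟨u', hu'⟩ := hfibne
    rw [mem_filter] at hu'
    obtain ⟨hu'U, hu'w⟩ := hu'
    rw [hU, mem_biUnion] at hu'U
    obtain ⟨c, hcB', hcu⟩ := hu'U
    rw [hB', mem_filter] at hcB'
    obtain ⟨hcB, hcn⟩ := hcB'
    rw [mem_Ioc] at hcu
    obtain ⟨hnxC, hnx1, hnx2, -⟩ := hB c hcB
    have h2n : 2 ^ (i + 1) * V = 2 * n' := by
      rw [hn', pow_succ]
      ring
    rw [h2n] at hnx2
    obtain ⟨Y', hY'c, hY's, hY'm⟩ := copies (L := V) (x := c - u') (D := nx c - c) (t := 2)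
      (Y := W) hWV hWs (by norm_num) (fun _ => by omega)
    refine ⟨L', u', c - u', Y', ?_, by omega, by omega, ?_, ?_, ?_, ?_⟩
    · -- the state
      refine ⟨?_, hY's, by omega, ?_, hS.hYs, ?_⟩
      · intro y hy
        obtain ⟨k, hk, w, hw, rfl⟩ := hY'm y hy
        have hwV := hWV w hw
        rw [mem_fac]
        have : k = 0 ∨ k = 1 := by omega
        rcases this with rfl | rfl
        · refine ⟨by omega, ?_⟩
          have h1 := hWA c (hBC hcB) w hw
          have e : u' + (c - u' + 0 * (nx c - c) + w) = c + w := by omega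
          rwa [e]
        · refine ⟨by omega, ?_⟩
          have h1 := hWA (nx c) hnxC w hw
          have e : u' + (c - u' + 1 * (nx c - c) + w) = nx c + w := by omega
          rwa [e]
      · intro y hy
        have h1 := hS.hY y hy
        have h2 := (mem_occ.1 (hCT (hBC hcB))).2
        rw [← h2, mem_fac] at h1
        refine ⟨h1.1, ?_⟩
        rw [mem_fac]
        refine ⟨by omega, ?_⟩
        have e : u' + (c - u' + y) = c + y := by omega
        rw [e]
        exact h1.2
      · exact new_gap (hCT (hBC hcB)) (hCT hnxC) (by omega) (hstart _ hnxC) (by omega) (by omega)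
    · rw [hL', hn']
      apply Nat.mul_le_mul_left
      apply Nat.mul_le_mul_left
      omega
    · have := hCX _ hnxC
      omega
    · calc L' * C.card = 4 * (2 ^ i * V * C.card) := by rw [hL', hn']; ring
        _ ≤ 4 * (8 * X) := Nat.mul_le_mul_left _ hBX
        _ = 32 * X := by ring
    · -- counting
      have h1 : B'.card * n' ≤ cplx A L' * (occ A X L' u').card := by
        rw [← hUcard]
        refine hfib.trans ?_
        have h2 : (U.filter (fun a => fac A L' a = w')).card ≤ (occ A X L' u').card := by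
          apply card_le_card
          intro s hs
          rw [mem_filter, hU, mem_biUnion] at hs
          obtain ⟨⟨c', hc', hsc⟩, hsw⟩ := hs
          rw [hB', mem_filter] at hc'
          rw [mem_Ioc] at hsc
          rw [mem_occ]
          have := hCX _ (hBC hc'.1)
          exact ⟨by omega, by rw [hsw, hu'w]⟩
        exact Nat.mul_le_mul_left _ h2
      have h2 : ((B'.card : ℝ) * n') ≤ (cplx A L' * (occ A X L' u').card : ℝ) := by
        exact_mod_cast h1
      have h3 : (B.card : ℝ) ≤ 2 * B'.card := by exact_mod_cast hB'2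
      have h4 : (L' : ℝ) = 4 * n' := by
        rw [hL']
        push_cast
        ring
      rw [h4]
      have h5 : (0 : ℝ) ≤ n' := by positivity
      calc (1 - r) * r ^ i * C.card * (4 * n') ≤ (4 * B.card) * (4 * n') := by
            apply mul_le_mul_of_nonneg_right hBcard
            positivity
        _ ≤ (4 * (2 * B'.card)) * (4 * n') := by
            apply mul_le_mul_of_nonneg_right _ (by positivity)
            linarith
        _ = 32 * (B'.card * n') := by ring
        _ ≤ 32 * (cplx A L' * (occ A X L' u').card : ℝ) := by linarith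

end Pool.Agent.N664.FC
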