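import Pool.Agent.N664.FC.Power

/-!
# Sets with at most `C L ^ γ` factors of length `L`: large symmetric sets
-/

set_option autoImplicit false

namespace Pool.Agent.N664.FC

open Finset Classical Filter Topology Pool.Agent.W227.FC

/-- The states after `j` steps. -/
theorem states {A : Set ℕ} {γ C α : ℝ} (hγ : 1 ≤ γ) (hC : 0 < C)
    (hp : ∀ L : ℕ, 1 ≤ L → (cplx A L : ℝ) ≤ C * (L : ℝ) ^ γ) {R : ℕ} (hR : SymBound A R)
    (hR1 : 1 ≤ R) (j : ℕ) :
    ∀ τ : ℝ, 0 < τ → τ < 1 - γ ^ j * (1 - α) →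
      ∀ᶠ X : ℕ in atTop, (X : ℝ) ^ α ≤ cnt A X →
        ∃ (L u : ℕ) (Y : Finset ℕ) (P x : ℕ) (Z : Finset ℕ), 1 ≤ L ∧
          IsState A X L u Y P x Z ∧ 2 ^ j ≤ Y.card ∧ 1 ≤ Z.card ∧
          (X : ℝ) ^ τ ≤ (occ A X L u).card := by
  have hRr : (1 : ℝ) ≤ R := by exact_mod_cast hR1
  have hγ0 : 0 < γ := by linarith
  induction j with
  | zero =>
    intro τ hτ hτα
    filter_upwards [eventually_ge_atTop 1] with X hX hA
    have hX0 : (0 : ℝ) < X := by exact_mod_cast hX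
    have hcnt : 0 < cnt A X := by
      have : (0 : ℝ) < cnt A X := lt_of_lt_of_le (by positivity) hA
      exact_mod_cast this
    obtain ⟨u, hu, hu2⟩ := base_state hcnt
    refine ⟨1, u, {0}, 1, 0, {0}, le_refl _, hu, by simp, by simp, ?_⟩
    rw [hu2]
    refine le_trans ?_ hA
    apply Real.rpow_le_rpow_of_exponent_le (by exact_mod_cast hX)
    simp only [pow_zero, one_mul] at hτα
    linarith
  | succ j ih =>
    intro τ' hτ' hlt
    have h1 : γ ^ j * (1 - α) < (1 - τ') / γ := by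
      rw [lt_div_iff₀ hγ0]
      rw [pow_succ] at hlt
      linarith
    obtain ⟨θ, hθ1, hθ2⟩ := exists_between h1
    have h2 : (1 - τ') / γ < 1 := by
      rw [div_lt_one hγ0]
      linarith
    have hθγ : θ * γ < 1 - τ' := by rwa [lt_div_iff₀ hγ0] at hθ2
    set τ : ℝ := 1 - θ with hτ
    have hτ0 : 0 < τ := by linarith
    set ε : ℝ := min (τ / 2) ((1 - τ' - θ * γ) / 2) with hε
    have hε0 : 0 < ε := lt_min (by linarith) (by linarith)
    have hε1 : ε ≤ τ / 2 := min_le_left _ _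
    have hε2 : ε ≤ (1 - τ' - θ * γ) / 2 := min_le_right _ _
    set r : ℝ := (2 : ℝ) ^ (-ε) with hr
    have hr0 : 0 < r := by positivity
    have hr1 : r < 1 := r_lt hε0
    have h1r : 0 < 1 - r := by linarith
    -- the constants
    have hbig1 := pow_below (c := (1 - r) / (48 * (R : ℝ) ^ 2)) (α := ε) (β := τ)
      (by positivity) (by linarith)
    set D : ℝ := (1 - r) / (32 * C) * (32 : ℝ) ^ (1 - γ) * (1 / (6 * (R : ℝ) ^ 2)) ^ γ with hD
    have hD0 : 0 < D := by positivity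
    have hbig2 := pow_below (c := D) (α := τ') (β := 1 - γ - ε + γ * τ) hD0 (by
      rw [hτ]
      nlinarith)
    filter_upwards [ih τ hτ0 (by linarith), hbig1, hbig2, eventually_ge_atTop 1] with
      X hX hX1 hX2 hX3 hA
    obtain ⟨L, u, Y, P, x, Z, hL, hS, hY, hZ, hM⟩ := hX hA
    have hXr : (1 : ℝ) ≤ X := by exact_mod_cast hX3
    have hX0 : (0 : ℝ) < X := by linarith
    have hM2 : 48 * (R : ℝ) ^ 2 * (X : ℝ) ^ ε / (1 - r) ≤ (occ A X L u).card := by
      refine le_trans ?_ hM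
      rw [div_le_iff₀ h1r]
      calc 48 * (R : ℝ) ^ 2 * (X : ℝ) ^ ε ≤
          48 * (R : ℝ) ^ 2 * ((1 - r) / (48 * (R : ℝ) ^ 2) * (X : ℝ) ^ τ) := by
            apply mul_le_mul_of_nonneg_left hX1 (by positivity)
        _ = (X : ℝ) ^ τ * (1 - r) := by field_simp
    obtain ⟨q, κ, i, hq, hqR, hcard, hi, hκ, L', u', x', Y', g1, g2, g3, g4, g5, g6, g7⟩ :=
      step_bound hL hX3 hS hZ hε0 hR hR1 hM2
    have hL'1 : 1 ≤ L' := by
      have : 0 < 4 * (2 ^ i * L) := by positivity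
      omega
    refine ⟨L', u', Y', L, x', Y, hL'1, g1, ?_, ?_, ?_⟩
    · rw [pow_succ]
      omega
    · exact le_trans Nat.one_le_two_pow hY
    · set M' : ℝ := ((occ A X L' u').card : ℝ) with hM'
      have hL'r : (0 : ℝ) < L' := by exact_mod_cast hL'1
      have hκr : (0 : ℝ) < κ := by exact_mod_cast hκ
      -- `κ` is large
      have hκ1 : (X : ℝ) ^ τ * (1 / (6 * (R : ℝ) ^ 2)) ≤ κ := by
        have h3 : ((occ A X L u).card : ℝ) ≤ ((q * (q + 1) : ℕ) : ℝ) * κ := by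
          exact_mod_cast hcard
        have h4 : ((q * (q + 1) : ℕ) : ℝ) ≤ 6 * (R : ℝ) ^ 2 := by
          have h5 : (q : ℝ) ≤ 2 * R := by exact_mod_cast hqR
          have h6 : (0 : ℝ) ≤ q := by positivity
          push_cast
          calc (q : ℝ) * (q + 1) ≤ (2 * R) * (2 * R + 1) := by
                apply mul_le_mul h5 (by linarith) (by positivity) (by positivity)
            _ ≤ 6 * (R : ℝ) ^ 2 := by nlinarith
        have h5 : (X : ℝ) ^ τ ≤ 6 * (R : ℝ) ^ 2 * κ :=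
          hM.trans (h3.trans (mul_le_mul_of_nonneg_right h4 hκr.le))
        rw [mul_one_div, div_le_iff₀ (by positivity)]
        linarith
      -- the factors of length `L'`
      have h3 : (1 - r) * ((2 : ℝ) ^ i) ^ (-ε) * κ * L' ≤ 32 * (C * (L' : ℝ) ^ γ * M') := by
        refine g7.trans ?_
        apply mul_le_mul_of_nonneg_left _ (by norm_num)
        exact mul_le_mul_of_nonneg_right (hp L' hL'1) (by positivity)
      have h4 : (X : ℝ) ^ (-ε) ≤ ((2 : ℝ) ^ i) ^ (-ε) := by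
        apply Real.rpow_le_rpow_of_nonpos (by positivity) _ (by linarith)
        exact_mod_cast hi
      have h5 : (1 - r) * (X : ℝ) ^ (-ε) * κ * (L' : ℝ) ^ (1 - γ) ≤ 32 * C * M' := by
        have h6 : (L' : ℝ) ^ (1 - γ) = L' / (L' : ℝ) ^ γ := by
          rw [Real.rpow_sub hL'r, Real.rpow_one]
        rw [h6, mul_div_assoc', div_le_iff₀ (by positivity)]
        calc (1 - r) * (X : ℝ) ^ (-ε) * κ * L' ≤ (1 - r) * ((2 : ℝ) ^ i) ^ (-ε) * κ * L' := by
              apply mul_le_mul_of_nonneg_right _ hL'r.le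
              apply mul_le_mul_of_nonneg_right _ hκr.le
              exact mul_le_mul_of_nonneg_left h4 h1r.le
          _ ≤ 32 * (C * (L' : ℝ) ^ γ * M') := h3
          _ = 32 * C * M' * (L' : ℝ) ^ γ := by ring
      have h6 : (32 * X / κ : ℝ) ^ (1 - γ) ≤ (L' : ℝ) ^ (1 - γ) := by
        apply Real.rpow_le_rpow_of_nonpos hL'r _ (by linarith)
        rw [le_div_iff₀ hκr]
        exact_mod_cast g6
      have h7 : (κ : ℝ) * (32 * X / κ : ℝ) ^ (1 - γ) =
          (32 : ℝ) ^ (1 - γ) * (X : ℝ) ^ (1 - γ) * (κ : ℝ) ^ γ := by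
        rw [Real.div_rpow (by positivity) hκr.le, Real.mul_rpow (by norm_num) hX0.le]
        have : (κ : ℝ) ^ (1 - γ) = κ / (κ : ℝ) ^ γ := by
          rw [Real.rpow_sub hκr, Real.rpow_one]
        rw [this]
        have hbγ : (0 : ℝ) < (κ : ℝ) ^ γ := by positivity
        field_simp
      have h8 : ((X : ℝ) ^ τ * (1 / (6 * (R : ℝ) ^ 2))) ^ γ ≤ (κ : ℝ) ^ γ :=
        Real.rpow_le_rpow (by positivity) hκ1 hγ0.le
      rw [Real.mul_rpow (by positivity) (by positivity), ← Real.rpow_mul hX0.le] at h8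
      have h9 : D * (X : ℝ) ^ (1 - γ - ε + γ * τ) ≤ M' := by
        have e1 : (X : ℝ) ^ (1 - γ - ε + γ * τ) =
            (X : ℝ) ^ (-ε) * (X : ℝ) ^ (1 - γ) * (X : ℝ) ^ (τ * γ) := by
          rw [← Real.rpow_add hX0, ← Real.rpow_add hX0]
          congr 1
          ring
        have e2 : D * (X : ℝ) ^ (1 - γ - ε + γ * τ) * (32 * C) =
            (1 - r) * (X : ℝ) ^ (-ε) * ((32 : ℝ) ^ (1 - γ) * (X : ℝ) ^ (1 - γ) *
              ((X : ℝ) ^ (τ * γ) * (1 / (6 * (R : ℝ) ^ 2)) ^ γ)) := by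
          rw [e1, hD]
          field_simp
        have e3 : D * (X : ℝ) ^ (1 - γ - ε + γ * τ) * (32 * C) ≤ M' * (32 * C) := by
          rw [e2]
          calc (1 - r) * (X : ℝ) ^ (-ε) * ((32 : ℝ) ^ (1 - γ) * (X : ℝ) ^ (1 - γ) *
              ((X : ℝ) ^ (τ * γ) * (1 / (6 * (R : ℝ) ^ 2)) ^ γ)) ≤
              (1 - r) * (X : ℝ) ^ (-ε) * ((32 : ℝ) ^ (1 - γ) * (X : ℝ) ^ (1 - γ) *
                (κ : ℝ) ^ γ) := by
                apply mul_le_mul_of_nonneg_left _ (by positivity)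
                exact mul_le_mul_of_nonneg_left h8 (by positivity)
            _ = (1 - r) * (X : ℝ) ^ (-ε) * (κ * (32 * X / κ : ℝ) ^ (1 - γ)) := by rw [h7]
            _ ≤ (1 - r) * (X : ℝ) ^ (-ε) * (κ * (L' : ℝ) ^ (1 - γ)) := by
                apply mul_le_mul_of_nonneg_left _ (by positivity)
                exact mul_le_mul_of_nonneg_left h6 hκr.le
            _ = (1 - r) * (X : ℝ) ^ (-ε) * κ * (L' : ℝ) ^ (1 - γ) := by ring
            _ ≤ 32 * C * M' := h5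
            _ = M' * (32 * C) := by ring
        exact le_of_mul_le_mul_right e3 (by positivity)
      exact hX2.trans h9

/-- **Thresholds.** -/
theorem large_symm {A : Set ℕ} {γ C α : ℝ} (hγ : 1 ≤ γ)
    (hp : ∀ L : ℕ, 1 ≤ L → (cplx A L : ℝ) ≤ C * (L : ℝ) ^ γ)
    (hA : ∃ᶠ X : ℕ in atTop, (X : ℝ) ^ α ≤ cnt A X) (m : ℕ) (hm : γ ^ m * (1 - α) < 1)
    {R : ℕ} (hR : R < 2 ^ (m + 1)) : ¬ SymBound A R := by
  intro hsym
  -- the bound may be increased
  have hmono : SymBound A (2 ^ (m + 1) - 1) := by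
    intro s W h1 h2
    have := hsym s W h1 h2
    omega
  set R' := 2 ^ (m + 1) - 1 with hR'
  have hpw : 2 ≤ 2 ^ (m + 1) := by
    have : 2 ^ 1 ≤ 2 ^ (m + 1) := Nat.pow_le_pow_right (by norm_num) (by omega)
    simpa using this
  have hR'1 : 1 ≤ R' := by omega
  have hC' : 0 < max C 1 := lt_of_lt_of_le one_pos (le_max_right _ _)
  have hp' : ∀ L : ℕ, 1 ≤ L → (cplx A L : ℝ) ≤ max C 1 * (L : ℝ) ^ γ := by
    intro L hL
    refine le_trans (hp L hL) ?_
    apply mul_le_mul_of_nonneg_right (le_max_left _ _) (by positivity)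
  have hτ : 0 < (1 - γ ^ m * (1 - α)) / 2 := by linarith
  have h1 := states (α := α) hγ hC' hp' hmono hR'1 m ((1 - γ ^ m * (1 - α)) / 2) hτ (by linarith)
  have hbig : ∀ᶠ X : ℕ in atTop, (18 * (R' : ℝ) ^ 2 : ℝ) ≤
      (X : ℝ) ^ ((1 - γ ^ m * (1 - α)) / 2) :=
    (tendsto_natCast_atTop_atTop (R := ℝ)).eventually
      ((tendsto_rpow_atTop hτ).eventually_ge_atTop _)
  obtain ⟨X, hX, h2, h3⟩ := (hA.and_eventually (h1.and hbig)).exists
  obtain ⟨L, u, Y, P, x, Z, hL, hS, hY, hZ, hM⟩ := h2 hX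
  have h4 : (18 * (R' : ℝ) ^ 2 : ℝ) ≤ (occ A X L u).card := h3.trans hM
  have h5 : 18 * R' ^ 2 ≤ (occ A X L u).card := by exact_mod_cast h4
  obtain ⟨q, κ, hq, hcard, h6, h7, -⟩ := step hL hS (r := 1 / 2) (by norm_num) (by norm_num)
  have hκ1 : 1 ≤ κ := by
    by_contra hcon
    have h0 : κ = 0 := by omega
    subst h0
    rw [mul_zero] at hcard
    have : 0 < R' ^ 2 := by positivity
    omega
  obtain ⟨s, W, hW1, hW2, -, hW4⟩ := h6 hκ1
  have hWR := hmono s W hW1 hW2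
  have hq2 : q ≤ 2 * R' := by
    have h8 : q * 1 ≤ q * Z.card := Nat.mul_le_mul_left _ hZ
    omega
  have hqq : q * (q + 1) ≤ 6 * R' ^ 2 := by
    calc q * (q + 1) ≤ (2 * R') * (2 * R' + 1) := Nat.mul_le_mul hq2 (by omega)
      _ ≤ 6 * R' ^ 2 := by nlinarith
  have hκ3 : 3 ≤ κ := by
    have h8 : 18 * R' ^ 2 ≤ 6 * R' ^ 2 * κ := h5.trans (hcard.trans (Nat.mul_le_mul_right _ hqq))
    have h9 : 0 < 6 * R' ^ 2 := by positivity
    have h10 : 6 * R' ^ 2 * 3 ≤ 6 * R' ^ 2 * κ := by linarith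
    exact Nat.le_of_mul_le_mul_left h10 h9
  obtain ⟨s', W', hW'1, hW'2, hW'3⟩ := h7 hκ3
  have := hmono s' W' hW'1 hW'2
  have h11 : 2 ^ (m + 1) ≤ 2 * Y.card := by
    rw [pow_succ]
    omega
  omega

end Pool.Agent.N664.FC
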